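import Mathlib

/-!
# Path-pairable graphs and planar graphs: definitions
-/

open Set

namespace Pool.Agent.helper90.PathPair

/-- `G` is planar: it has a drawing in the plane `ℝ × ℝ` in which the vertices are distinct
points, each edge is a simple arc joining its two ends, an edge passes through no vertex
other than its two ends, and two different edges have no common point other than common ends. -/
def IsPlanar {V : Type*} (G : SimpleGraph V) : Prop :=
  ∃ (pt : V → ℝ × ℝ) (arc : Sym2 V → ℝ → ℝ × ℝ), Function.Injective pt ∧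
    (∀ e ∈ G.edgeSet, ContinuousOn (arc e) (Icc 0 1) ∧ InjOn (arc e) (Icc 0 1) ∧
      s(arc e 0, arc e 1) = e.map pt) ∧
    (∀ e ∈ G.edgeSet, ∀ t ∈ Icc (0 : ℝ) 1, ∀ w : V, arc e t = pt w → w ∈ e) ∧
    (∀ e ∈ G.edgeSet, ∀ e' ∈ G.edgeSet, e ≠ e' →
      ∀ t ∈ Icc (0 : ℝ) 1, ∀ t' ∈ Icc (0 : ℝ) 1, arc e t = arc e' t' →
        ∃ w, w ∈ e ∧ w ∈ e' ∧ arc e t = pt w)

/-- `G` is path-pairable: the number of vertices is even and for every pairing
`{s 0, t 0}, …, {s (m-1), t (m-1)}` of the vertex set there are pairwise edge-disjoint paths,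
the `i`-th one joining `s i` to `t i`. -/
def IsPathPairable {V : Type*} [Fintype V] (G : SimpleGraph V) : Prop :=
  Even (Fintype.card V) ∧
    ∀ (m : ℕ) (s t : Fin m → V), Function.Bijective (Sum.elim s t : Fin m ⊕ Fin m → V) →
      ∃ P : ∀ i, G.Path (s i) (t i),
        ∀ i j, i ≠ j → List.Disjoint (P i).1.edges (P j).1.edges

end Pool.Agent.helper90.PathPair
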