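import Pool.Agent.helper90.PathPair.Select

/-!
# The final graphs
-/

open Set

namespace Pool.Agent.helper90.PathPair

/-- right hub -/
def YY (k B : ℕ) : ℤ := sz k + 3 * B

/-- edges from the left hub to the rungs -/
def RX (k B : ℕ) : Set (ℤ × ℤ) := {p | p.1 = -sz k ∧ sz k ≤ p.2 ∧ p.2 < YY k B}

/-- edges from the rungs to the right hub -/
def RY (k B : ℕ) : Set (ℤ × ℤ) := {p | p.2 = YY k B ∧ sz k ≤ p.1 ∧ p.1 < YY k B}

/-- links of consecutive rungs -/
def RL (k B : ℕ) : Set (ℤ × ℤ) := {p | p.2 = p.1 + 1 ∧ sz k ≤ p.1 ∧ p.2 < YY k B}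

/-- upper edges -/
def UF (k B : ℕ) : Set (ℤ × ℤ) := Up k (-sz k) (YY k B) ∪ RX k B

/-- lower edges -/
def DF (k B : ℕ) : Set (ℤ × ℤ) := Dn k (-sz k) (YY k B) ∪ (RY k B ∪ RL k B)

variable {k B : ℕ}

theorem sz_le_YY : (sz k : ℤ) ≤ YY k B := by
  unfold YY
  have : (0 : ℤ) ≤ B := by positivity
  linarith

theorem sz_pos' : (0 : ℤ) < sz k := by exact_mod_cast sz_pos k

theorem nonCr_UF : NonCr (UF k B) := by
  rintro p (hp | hp) q (hq | hq) ⟨i1, i2, i3⟩
  · exact nonCr_Up k _ _ (le_refl _) p hp q hq ⟨i1, i2, i3⟩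
  · have := mem_Up (le_refl _) hp
    have := hq.1
    linarith
  · have := mem_Up (le_refl _) hq
    have := hp.2.1
    linarith
  · have := hp.1
    have := hq.1
    linarith

theorem nonCr_DF : NonCr (DF k B) := by
  have hY := sz_le_YY (k := k) (B := B)
  rintro p (hp | hp | hp) q (hq | hq | hq) ⟨i1, i2, i3⟩
  · exact nonCr_Dn k _ _ hY p hp q hq ⟨i1, i2, i3⟩
  · have h1 := mem_Dn hY hp
    have h2 := hq.1
    have h3 := hq.2.1
    rcases h1.2.2.2.1 with h4 | h4 <;> linarith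
  · have := hq.1
    omega
  · have h1 := mem_Dn hY hq
    have h2 := hp.1
    linarith
  · have := hp.1
    have := hq.1
    linarith
  · have := hq.1
    omega
  · have := hp.1
    omega
  · have := hp.1
    omega
  · have := hp.1
    omega

theorem mem_F {p : ℤ × ℤ} (hp : p ∈ UF k B ∪ DF k B) :
    -(sz k : ℤ) ≤ p.1 ∧ p.1 < p.2 ∧ p.2 ≤ YY k B := by
  have hY := sz_le_YY (k := k) (B := B)
  have h0 := sz_pos' (k := k)
  rcases hp with (hp | hp) | (hp | hp | hp)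
  · have := mem_Up (le_refl _) hp
    exact ⟨this.2.1, this.1, by linarith⟩
  · obtain ⟨h1, h2, h3⟩ := hp
    exact ⟨h1.ge, by linarith, h3.le⟩
  · have := mem_Dn hY hp
    exact ⟨by linarith, this.1, this.2.1⟩
  · obtain ⟨h1, h2, h3⟩ := hp
    exact ⟨by linarith, by linarith, h1.le⟩
  · obtain ⟨h1, h2, h3⟩ := hp
    exact ⟨by linarith, by linarith, h3.le⟩

theorem lip_F {p : ℤ × ℤ} (hp : p ∈ UF k B ∪ DF k B) :
    lev k p.1 ≤ lev k p.2 + 1 ∧ lev k p.2 ≤ lev k p.1 + 1 := by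
  have hY := sz_le_YY (k := k) (B := B)
  have h0 := sz_pos' (k := k)
  have far : (sz k : ℤ) ≤ |p.1| → (sz k : ℤ) ≤ |p.2| →
      lev k p.1 ≤ lev k p.2 + 1 ∧ lev k p.2 ≤ lev k p.1 + 1 := by
    intro h4 h5
    rw [lev_zero h4, lev_zero h5]
    omega
  rcases hp with (hp | hp) | (hp | hp | hp)
  · exact lip k _ _ (le_refl _) hY p (Or.inl hp)
  · obtain ⟨h1, h2, h3⟩ := hp
    exact far (by rw [le_abs]; right; linarith) (by rw [le_abs]; left; linarith)
  · exact lip k _ _ (le_refl _) hY p (Or.inr hp)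
  · obtain ⟨h1, h2, h3⟩ := hp
    exact far (by rw [le_abs]; left; linarith) (by rw [le_abs]; left; linarith)
  · obtain ⟨h1, h2, h3⟩ := hp
    exact far (by rw [le_abs]; left; linarith) (by rw [le_abs]; left; linarith)

/-- rung edges are not edges of the core -/
theorem core_disj {p : ℤ × ℤ} (hp : p ∈ Ed k (-sz k) (YY k B))
    (hp' : p ∈ RX k B ∪ (RY k B ∪ RL k B)) : False := by
  have hY := sz_le_YY (k := k) (B := B)
  have h0 := sz_pos' (k := k)
  rcases hp with hp | hp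
  · have h1 := mem_Up (le_refl _) hp
    rcases hp' with ⟨h2, h3, h4⟩ | ⟨h2, h3, h4⟩ | ⟨h2, h3, h4⟩ <;> linarith
  · have h1 := mem_Dn hY hp
    rcases hp' with ⟨h2, h3, h4⟩ | ⟨h2, h3, h4⟩ | ⟨h2, h3, h4⟩ <;> linarith

theorem final_route (hB : 6 * (2 * sz k + 1) ≤ B) (σ : ℤ → ℤ)
    (h1 : ∀ z, -(sz k : ℤ) ≤ z → z ≤ YY k B → -(sz k : ℤ) ≤ σ z ∧ σ z ≤ YY k B)
    (h2 : ∀ z, -(sz k : ℤ) ≤ z → z ≤ YY k B → σ (σ z) = z) :
    ∃ S : ℤ → Set (ℤ × ℤ), Fam (UF k B ∪ DF k B) S ∧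
      ∀ z, -(sz k : ℤ) ≤ z → z ≤ YY k B → Cn (S (min z (σ z))) z (σ z) := by
  classical
  have hY := sz_le_YY (k := k) (B := B)
  have h0 := sz_pos' (k := k)
  have hYd : YY k B = sz k + 3 * B := rfl
  have hXY : -(sz k : ℤ) ≠ YY k B := by linarith
  obtain ⟨S₀, hS₀, hr⟩ := route k (-sz k) (YY k B) (le_refl _) hY
  -- terminals
  set T : Finset ℤ := insert (YY k B) (Finset.Ico (-(sz k : ℤ)) (sz k)) with hT
  have hTcard : T.card ≤ 2 * sz k + 1 := by
    refine (Finset.card_insert_le _ _).trans ?_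
    rw [Int.card_Ico]
    omega
  have memT : ∀ z, z ∈ T ↔ z = YY k B ∨ (-(sz k : ℤ) ≤ z ∧ z < sz k) := by
    intro z
    rw [hT, Finset.mem_insert, Finset.mem_Ico]
  have notT : ∀ z, -(sz k : ℤ) ≤ z → z ≤ YY k B → z ∉ T → sz k ≤ z ∧ z < YY k B := by
    intro z h3 h4 h5
    rw [memT] at h5
    push Not at h5
    exact ⟨h5.2 h3, lt_of_le_of_ne h4 h5.1⟩
  -- hubs of terminals
  have hub : ∃ hb : ℤ → ℤ, ∀ z ∈ T, (hb z = -(sz k : ℤ) ∨ hb z = YY k B) ∧ Cn (S₀ z) z (hb z) := by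
    have : ∀ z, ∃ w, z ∈ T → (w = -(sz k : ℤ) ∨ w = YY k B) ∧ Cn (S₀ z) z w := by
      intro z
      by_cases hz : z ∈ T
      · rcases (memT z).1 hz with h3 | ⟨h3, h4⟩
        · exact ⟨z, fun _ => ⟨Or.inr h3, Cn.refl _ _⟩⟩
        · rcases eq_or_lt_of_le h3 with h5 | h5
          · exact ⟨z, fun _ => ⟨Or.inl h5.symm, Cn.refl _ _⟩⟩
          · rcases hr z h5 h4 with h6 | h6
            · exact ⟨_, fun _ => ⟨Or.inl rfl, h6⟩⟩
            · exact ⟨_, fun _ => ⟨Or.inr rfl, h6⟩⟩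
      · exact ⟨0, fun h => absurd h hz⟩
    choose hb hhb using this
    exact ⟨hb, hhb⟩
  obtain ⟨hb, hhb⟩ := hub
  obtain ⟨φ, hφ, hφ'⟩ := select (sz k) B T σ
    (by
      intro z h3 h4 _ h6
      obtain ⟨h7, h8⟩ := h1 z (by linarith) (by rw [hYd]; exact h4.le)
      have := notT _ h7 h8 h6
      rwa [hYd] at this)
    (by
      intro z h3 h4
      exact h2 z (by linarith) (by rw [hYd]; exact h4.le)) T (by omega)
  rw [← hYd] at hφ
  -- hub of every vertex
  set h : ℤ → ℤ := fun v => if v ∈ T then hb v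
    else if ∃ l ∈ T, v = φ l ∨ σ v = φ l then YY k B
    else if ∃ l ∈ T, v = φ l + 1 ∨ σ v = φ l + 1 then -(sz k : ℤ)
    else if σ v ∈ T then hb (σ v) else -(sz k : ℤ) with hh
  have hval : ∀ v, h v = -(sz k : ℤ) ∨ h v = YY k B := by
    intro v
    rw [hh]
    simp only
    split_ifs with h3 h4 h5 h6
    · exact (hhb v h3).1
    · exact Or.inr rfl
    · exact Or.inl rfl
    · exact (hhb _ h6).1
    · exact Or.inl rfl
  have hrange : ∀ l ∈ T, sz k ≤ φ l ∧ φ l + 1 < YY k B := fun l hl => ⟨(hφ l hl).1, (hφ l hl).2.1⟩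
  have hφT : ∀ l ∈ T, φ l ∉ T ∧ φ l + 1 ∉ T := by
    intro l hl
    obtain ⟨h3, h4⟩ := hrange l hl
    rw [memT, memT]
    constructor
    · rintro (h5 | h5) <;> linarith
    · rintro (h5 | h5) <;> linarith
  have hσT : ∀ l ∈ T, σ (φ l) ∉ T ∧ σ (φ l + 1) ∉ T := by
    intro l hl
    obtain ⟨-, -, -, ⟨h3, h4⟩, h5, h6⟩ := hφ l hl
    rw [memT, memT]
    constructor
    · rintro (h5 | h5) <;> linarith
    · rintro (h5 | h5) <;> linarith
  have hu : ∀ l ∈ T, h (φ l) = YY k B := by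
    intro l hl
    rw [hh]
    simp only
    rw [if_neg (hφT l hl).1, if_pos ⟨l, hl, Or.inl rfl⟩]
  have hv : ∀ l ∈ T, h (φ l + 1) = -(sz k : ℤ) := by
    intro l hl
    rw [hh]
    simp only
    rw [if_neg (hφT l hl).2, if_neg, if_pos ⟨l, hl, Or.inl rfl⟩]
    rintro ⟨l', hl', h3⟩
    by_cases hll : l = l'
    · subst hll
      rcases h3 with h3 | h3
      · omega
      · obtain ⟨h4, h5⟩ := hrange l hl
        apply (hφ l hl).2.2.1
        have h6 := h2 (φ l + 1) (by linarith) (by linarith)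
        rwa [h3] at h6
    · have h4 := hφ' l hl l' hl' hll (φ l + 1) (Or.inr rfl) (φ l') (Or.inl rfl)
      rcases h3 with h3 | h3
      · exact h4.1 h3
      · exact h4.2.1 h3
  -- partner conditions
  have hpart : ∀ v, -(sz k : ℤ) ≤ v → v ≤ YY k B → h v = h (σ v) ∨ (v ∈ T ∧ σ v ∈ T) := by
    intro v hv1 hv2
    have hss := h2 v hv1 hv2
    obtain ⟨hw1, hw2⟩ := h1 v hv1 hv2
    have mixed : ∀ v, -(sz k : ℤ) ≤ v → v ≤ YY k B → σ (σ v) = v → v ∉ T → σ v ∈ T →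
        h v = h (σ v) := by
      intro v hv1 hv2 hss hvT hsT
      rw [hh]
      simp only
      rw [if_neg hvT, if_neg, if_neg, if_pos hsT, if_pos hsT]
      · rintro ⟨l, hl, h3 | h3⟩
        · apply (hσT l hl).2
          rw [← h3]; exact hsT
        · apply (hφT l hl).2
          rw [← h3]; exact hsT
      · rintro ⟨l, hl, h3 | h3⟩
        · apply (hσT l hl).1
          rw [← h3]; exact hsT
        · apply (hφT l hl).1
          rw [← h3]; exact hsT
    by_cases hvT : v ∈ T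
    · by_cases hsT : σ v ∈ T
      · exact Or.inr ⟨hvT, hsT⟩
      · left
        have := mixed (σ v) hw1 hw2 (by rw [hss]) hsT (by rw [hss]; exact hvT)
        rw [hss] at this
        exact this.symm
    · left
      by_cases hsT : σ v ∈ T
      · exact mixed v hv1 hv2 hss hvT hsT
      · rw [hh]
        simp only
        rw [if_neg hvT, if_neg hsT, hss, if_neg hvT, if_neg hsT]
        have e1 : (∃ l ∈ T, v = φ l ∨ σ v = φ l) ↔ (∃ l ∈ T, σ v = φ l ∨ v = φ l) := by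
          constructor
          · rintro ⟨l, hl, h3⟩; exact ⟨l, hl, h3.symm⟩
          · rintro ⟨l, hl, h3⟩; exact ⟨l, hl, h3.symm⟩
        have e2 : (∃ l ∈ T, v = φ l + 1 ∨ σ v = φ l + 1) ↔
            (∃ l ∈ T, σ v = φ l + 1 ∨ v = φ l + 1) := by
          constructor
          · rintro ⟨l, hl, h3⟩; exact ⟨l, hl, h3.symm⟩
          · rintro ⟨l, hl, h3⟩; exact ⟨l, hl, h3.symm⟩
        simp only [e1, e2]
  -- own routes
  set O : ℤ → Set (ℤ × ℤ) := fun v => {p | (v ∈ T ∧ p ∈ S₀ v) ∨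
    ((sz k ≤ v ∧ v < YY k B) ∧ ((h v = -(sz k : ℤ) ∧ p = (-(sz k : ℤ), v)) ∨
      (h v = YY k B ∧ p = (v, YY k B))))} with hO
  set K : ℤ → Set (ℤ × ℤ) := fun l => {p | l ∈ T ∧ (p = (-(sz k : ℤ), φ l) ∨
    p = (φ l, φ l + 1) ∨ p = (φ l + 1, YY k B))} with hK
  have hOsub : ∀ v, O v ⊆ UF k B ∪ DF k B := by
    rintro v p (⟨h3, h4⟩ | ⟨⟨h3, h4⟩, ⟨-, rfl⟩ | ⟨-, rfl⟩⟩)
    · rcases hS₀.1 v h4 with h5 | h5
      · exact Or.inl (Or.inl h5)
      · exact Or.inr (Or.inl h5)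
    · exact Or.inl (Or.inr ⟨rfl, h3, h4⟩)
    · exact Or.inr (Or.inr (Or.inl ⟨rfl, h3, h4⟩))
  have hKsub : ∀ l, K l ⊆ RX k B ∪ (RY k B ∪ RL k B) := by
    rintro l p ⟨hl, rfl | rfl | rfl⟩
    · obtain ⟨h3, h4⟩ := hrange l hl
      exact Or.inl ⟨rfl, h3, by simp only; linarith⟩
    · obtain ⟨h3, h4⟩ := hrange l hl
      exact Or.inr (Or.inr ⟨rfl, h3, h4⟩)
    · obtain ⟨h3, h4⟩ := hrange l hl
      exact Or.inr (Or.inl ⟨rfl, by simp only; linarith, h4⟩)
  have hKsub' : ∀ l, K l ⊆ UF k B ∪ DF k B := by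
    intro l p hp
    rcases hKsub l hp with h5 | h5
    · exact Or.inl (Or.inr h5)
    · exact Or.inr (Or.inr h5)
  have rungmem : ∀ (v : ℤ) (p : ℤ × ℤ), ((sz k ≤ v ∧ v < YY k B) ∧ ((h v = -(sz k : ℤ) ∧ p = (-(sz k : ℤ), v)) ∨
      (h v = YY k B ∧ p = (v, YY k B)))) → p ∈ RX k B ∪ (RY k B ∪ RL k B) := by
    rintro v p ⟨⟨h3, h4⟩, ⟨-, rfl⟩ | ⟨-, rfl⟩⟩
    · exact Or.inl ⟨rfl, h3, h4⟩
    · exact Or.inr (Or.inl ⟨rfl, h3, h4⟩)
  have hOO : ∀ v v' p, p ∈ O v → p ∈ O v' → v = v' := by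
    rintro v v' p (⟨h3, h4⟩ | h3) (⟨h5, h6⟩ | h5)
    · exact hS₀.2 _ _ _ h4 h6
    · exact (core_disj (hS₀.1 _ h4) (rungmem _ _ h5)).elim
    · exact (core_disj (hS₀.1 _ h6) (rungmem _ _ h3)).elim
    · obtain ⟨⟨h3, h4⟩, ⟨-, h7⟩ | ⟨-, h7⟩⟩ := h3
      · obtain ⟨⟨h5, h6⟩, ⟨-, h8⟩ | ⟨-, h8⟩⟩ := h5
        · rw [h7] at h8; exact congrArg Prod.snd h8
        · rw [h7] at h8
          have := congrArg Prod.fst h8
          simp only at this
          linarith
      · obtain ⟨⟨h5, h6⟩, ⟨-, h8⟩ | ⟨-, h8⟩⟩ := h5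
        · rw [h7] at h8
          have := congrArg Prod.fst h8
          simp only at this
          linarith
        · rw [h7] at h8; exact congrArg Prod.fst h8
  have hOK : ∀ v l p, p ∈ O v → p ∈ K l → False := by
    rintro v l p (⟨h3, h4⟩ | h3) h5
    · exact core_disj (hS₀.1 _ h4) (hKsub l h5)
    · obtain ⟨hl, h6⟩ := h5
      obtain ⟨h7, h8⟩ := hrange l hl
      have hul := hu l hl
      have hvl := hv l hl
      obtain ⟨⟨h3, h4⟩, ⟨h9, rfl⟩ | ⟨h9, rfl⟩⟩ := h3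
      · rcases h6 with h6 | h6 | h6
        · have := congrArg Prod.snd h6
          simp only at this
          rw [this, hul] at h9
          exact hXY h9.symm
        · have := congrArg Prod.fst h6
          simp only at this
          linarith
        · have := congrArg Prod.fst h6
          simp only at this
          linarith
      · rcases h6 with h6 | h6 | h6
        · have := congrArg Prod.fst h6
          simp only at this
          linarith
        · have := congrArg Prod.snd h6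
          simp only at this
          linarith
        · have := congrArg Prod.fst h6
          simp only at this
          rw [this, hvl] at h9
          exact hXY h9
  have hKK : ∀ l l' p, p ∈ K l → p ∈ K l' → l = l' := by
    rintro l l' p ⟨hl, h3⟩ ⟨hl', h4⟩
    by_contra hne
    obtain ⟨h7, h8⟩ := hrange l hl
    obtain ⟨h7', h8'⟩ := hrange l' hl'
    have e1 := (hφ' l hl l' hl' hne (φ l) (Or.inl rfl) (φ l') (Or.inl rfl)).1
    rcases h3 with rfl | rfl | rfl <;> rcases h4 with h4 | h4 | h4 <;>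
      [have := congrArg Prod.snd h4; have := congrArg Prod.fst h4; have := congrArg Prod.fst h4;
       have := congrArg Prod.fst h4; have := congrArg Prod.fst h4; have := congrArg Prod.snd h4;
       have := congrArg Prod.fst h4; have := congrArg Prod.snd h4; have := congrArg Prod.fst h4] <;>
      simp only at this
    · exact e1 this
    · linarith
    · linarith
    · linarith
    · exact e1 this
    · linarith
    · linarith
    · linarith
    · exact e1 (by linarith)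
  -- the family
  refine ⟨fun l => {p | (∃ v, min v (σ v) = l ∧ (-(sz k : ℤ) ≤ v ∧ v ≤ YY k B) ∧ p ∈ O v) ∨
    p ∈ K l}, ⟨?_, ?_⟩, ?_⟩
  · rintro l p (⟨v, -, -, hp⟩ | hp)
    · exact hOsub v hp
    · exact hKsub' l hp
  · rintro l l' p (⟨v, h3, -, hp⟩ | hp) (⟨v', h3', -, hp'⟩ | hp')
    · have := hOO _ _ _ hp hp'
      rw [← h3, ← h3', this]
    · exact (hOK _ _ _ hp hp').elim
    · exact (hOK _ _ _ hp' hp).elim
    · exact hKK _ _ _ hp hp'
  · intro z hz1 hz2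
    obtain ⟨hw1, hw2⟩ := h1 z hz1 hz2
    have hss := h2 z hz1 hz2
    set l := min z (σ z) with hl
    set P : Set (ℤ × ℤ) := {p | (∃ v, min v (σ v) = l ∧ (-(sz k : ℤ) ≤ v ∧ v ≤ YY k B) ∧ p ∈ O v) ∨
      p ∈ K l} with hP
    -- route of a vertex to its hub
    have own : ∀ v, -(sz k : ℤ) ≤ v → v ≤ YY k B → Cn (O v) v (h v) := by
      intro v hv1 hv2
      by_cases hvT : v ∈ T
      · have h3 : h v = hb v := by
          rw [hh]; simp only; rw [if_pos hvT]
        rw [h3]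
        exact (hhb v hvT).2.mono (fun p hp => Or.inl ⟨hvT, hp⟩)
      · obtain ⟨h3, h4⟩ := notT v hv1 hv2 hvT
        rcases hval v with h5 | h5
        · have h6 : ((-(sz k : ℤ)), v) ∈ O v := Or.inr ⟨⟨h3, h4⟩, Or.inl ⟨h5, rfl⟩⟩
          have h7 := (Cn.of_mem h6).symm
          rwa [h5]
        · have h6 : (v, YY k B) ∈ O v := Or.inr ⟨⟨h3, h4⟩, Or.inr ⟨h5, rfl⟩⟩
          have h7 := (Cn.of_mem h6)
          rwa [h5]
    have c1 : Cn P z (h z) := (own z hz1 hz2).mono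
      (fun p hp => Or.inl ⟨z, rfl, ⟨hz1, hz2⟩, hp⟩)
    have c2 : Cn P (σ z) (h (σ z)) := (own (σ z) hw1 hw2).mono
      (fun p hp => Or.inl ⟨σ z, by rw [hss, min_comm], ⟨hw1, hw2⟩, hp⟩)
    rcases hpart z hz1 hz2 with h3 | ⟨h3, h4⟩
    · rw [← h3] at c2
      exact c1.trans c2.symm
    · have hlT : l ∈ T := by
        rcases min_choice z (σ z) with h5 | h5 <;> rw [hl, h5]
        · exact h3
        · exact h4
      have cK : Cn P (-(sz k : ℤ)) (YY k B) := by
        have a1 : Cn P (-(sz k : ℤ)) (φ l) := Cn.of_mem (Or.inr ⟨hlT, Or.inl rfl⟩)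
        have a2 : Cn P (φ l) (φ l + 1) := Cn.of_mem (Or.inr ⟨hlT, Or.inr (Or.inl rfl)⟩)
        have a3 : Cn P (φ l + 1) (YY k B) := Cn.of_mem (Or.inr ⟨hlT, Or.inr (Or.inr rfl)⟩)
        exact (a1.trans a2).trans a3
      have cH : Cn P (h z) (h (σ z)) := by
        rcases hval z with h5 | h5 <;> rcases hval (σ z) with h6 | h6 <;> rw [h5, h6]
        · exact Cn.refl _ _
        · exact cK
        · exact cK.symm
        · exact Cn.refl _ _
      exact (c1.trans cH).trans c2.symm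

end Pool.Agent.helper90.PathPair
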