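import Mathlib

/-!
# Routing in bands and absorbers

Edges are ordered pairs `(a, b)` of integers with `a < b`.
-/

open Set

namespace Pool.Agent.helper90.PathPair

/-- connection of two points within a set of edges -/
def Cn (S : Set (ℤ × ℤ)) : ℤ → ℤ → Prop := Relation.EqvGen (fun a b => (a, b) ∈ S)

theorem Cn.refl (S : Set (ℤ × ℤ)) (a : ℤ) : Cn S a a := Relation.EqvGen.refl _

theorem Cn.symm {S : Set (ℤ × ℤ)} {a b : ℤ} (h : Cn S a b) : Cn S b a :=
  Relation.EqvGen.symm _ _ h

theorem Cn.trans {S : Set (ℤ × ℤ)} {a b c : ℤ} (h : Cn S a b) (h' : Cn S b c) : Cn S a c :=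
  Relation.EqvGen.trans _ _ _ h h'

theorem Cn.of_mem {S : Set (ℤ × ℤ)} {a b : ℤ} (h : (a, b) ∈ S) : Cn S a b :=
  Relation.EqvGen.rel _ _ h

theorem Cn.mono {S T : Set (ℤ × ℤ)} (hST : S ⊆ T) {a b : ℤ} (h : Cn S a b) : Cn T a b := by
  induction h with
  | rel x y hxy => exact Cn.of_mem (hST hxy)
  | refl x => exact Cn.refl _ _
  | symm x y _ ih => exact ih.symm
  | trans x y z _ _ ih1 ih2 => exact ih1.trans ih2

/-- pairwise disjoint families of edge sets inside `E` -/
def Fam {L : Type*} (E : Set (ℤ × ℤ)) (S : L → Set (ℤ × ℤ)) : Prop :=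
  (∀ l, S l ⊆ E) ∧ ∀ l l' p, p ∈ S l → p ∈ S l' → l = l'

theorem Fam.union {L : Type*} {E E' : Set (ℤ × ℤ)} {S S' : L → Set (ℤ × ℤ)} (h : Fam E S)
    (h' : Fam E' S') (hd : ∀ p, p ∈ E → p ∈ E' → False) :
    Fam (E ∪ E') (fun l => S l ∪ S' l) := by
  refine ⟨fun l => union_subset_union (h.1 l) (h'.1 l), ?_⟩
  rintro l l' p (hp | hp) (hp' | hp')
  · exact h.2 _ _ _ hp hp'
  · exact (hd p (h.1 _ hp) (h'.1 _ hp')).elim
  · exact (hd p (h.1 _ hp') (h'.1 _ hp)).elim
  · exact h'.2 _ _ _ hp hp'

theorem Fam.mono {L : Type*} {E E' : Set (ℤ × ℤ)} {S : L → Set (ℤ × ℤ)} (h : Fam E S)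
    (hE : E ⊆ E') : Fam E' S := ⟨fun l => (h.1 l).trans hE, h.2⟩

/-- a single edge used by at most one label -/
theorem fam_single {L : Type*} (p : ℤ × ℤ) (A : Set L) (hA : A.Subsingleton) :
    Fam {p} (fun l => {q | q = p ∧ l ∈ A}) :=
  ⟨fun _ _ hq => hq.1, fun _ _ _ h h' => hA h.2 h'.2⟩

/-- chords of the band of capacity `f + 1` on `[a, a + 2 ^ f]` -/
def Ch : ℕ → ℤ → Set (ℤ × ℤ)
  | 0, a => {(a, a + 1)}
  | f + 1, a => {(a, a + 2 ^ (f + 1))} ∪ (Ch f a ∪ Ch f (a + 2 ^ f))

theorem mem_Ch {f : ℕ} {a : ℤ} {p : ℤ × ℤ} (hp : p ∈ Ch f a) :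
    a ≤ p.1 ∧ p.1 < p.2 ∧ p.2 ≤ a + 2 ^ f := by
  induction f generalizing a with
  | zero =>
    rw [Ch, mem_singleton_iff] at hp
    subst hp
    simp
  | succ f ih =>
    have h2 : (0 : ℤ) < 2 ^ f := by positivity
    have h3 : (2 : ℤ) ^ (f + 1) = 2 * 2 ^ f := by ring
    rcases hp with hp | hp | hp
    · rw [mem_singleton_iff] at hp
      subst hp
      refine ⟨le_refl _, ?_, le_refl _⟩
      show a < a + 2 ^ (f + 1)
      linarith
    · obtain ⟨h4, h5, h6⟩ := ih hp
      exact ⟨h4, h5, by linarith⟩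
    · obtain ⟨h4, h5, h6⟩ := ih hp
      exact ⟨by linarith, h5, by linarith⟩

/-- a band of capacity `f + 1` carries `f + 1` edge-disjoint paths between its ends -/
theorem band (f : ℕ) : ∀ (a : ℤ) (I : Finset ℤ), I.card ≤ f + 1 →
    ∃ S : ℤ → Set (ℤ × ℤ), Fam (Ch f a) S ∧ ∀ l ∈ I, Cn (S l) a (a + 2 ^ f) := by
  induction f with
  | zero =>
    intro a I hI
    refine ⟨_, fam_single (a, a + 1) (I : Set ℤ) ?_, ?_⟩
    · intro x hx y hy
      exact Finset.card_le_one.1 hI x hx y hy
    · intro l hl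
      apply Cn.of_mem
      exact ⟨by simp, hl⟩
  | succ f ih =>
    intro a I hI
    have h2 : (0 : ℤ) < 2 ^ f := by positivity
    have h3 : (2 : ℤ) ^ (f + 1) = 2 * 2 ^ f := by ring
    rcases I.eq_empty_or_nonempty with rfl | ⟨l₀, hl₀⟩
    · exact ⟨fun _ => ∅, ⟨fun _ => empty_subset _, fun _ _ _ h => h.elim⟩, by simp⟩
    · have hc : (I.erase l₀).card ≤ f + 1 := by
        rw [Finset.card_erase_of_mem hl₀]; omega
      obtain ⟨S₁, hS₁, h₁⟩ := ih a _ hc
      obtain ⟨S₂, hS₂, h₂⟩ := ih (a + 2 ^ f) _ hc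
      have h12 := hS₁.union hS₂ (by
        intro p hp hp'
        obtain ⟨-, h5, h6⟩ := mem_Ch hp
        obtain ⟨h7, -, -⟩ := mem_Ch hp'
        linarith)
      have h0 := (fam_single (a, a + 2 ^ (f + 1)) ({l₀} : Set ℤ) subsingleton_singleton).union h12
        (by
          intro p hp hp'
          rw [mem_singleton_iff] at hp
          subst hp
          rcases hp' with hp' | hp'
          · obtain ⟨-, -, h6⟩ := mem_Ch hp'
            simp only at h6
            linarith
          · obtain ⟨h4, -, -⟩ := mem_Ch hp'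
            simp only at h4
            linarith)
      refine ⟨_, h0, ?_⟩
      intro l hl
      by_cases hl0 : l = l₀
      · subst hl0
        exact Cn.of_mem (Or.inl ⟨rfl, rfl⟩)
      · have hl' : l ∈ I.erase l₀ := Finset.mem_erase.2 ⟨hl0, hl⟩
        have e1 := (h₁ l hl').mono (T := {q | q = (a, a + 2 ^ (f + 1)) ∧ l ∈ ({l₀} : Set ℤ)} ∪
          (S₁ l ∪ S₂ l)) (fun q hq => Or.inr (Or.inl hq))
        have e2 := (h₂ l hl').mono (T := {q | q = (a, a + 2 ^ (f + 1)) ∧ l ∈ ({l₀} : Set ℤ)} ∪
          (S₁ l ∪ S₂ l)) (fun q hq => Or.inr (Or.inr hq))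
        have e3 : a + 2 ^ f + 2 ^ f = a + 2 ^ (f + 1) := by rw [h3]; ring
        rw [e3] at e2
        exact e1.trans e2

/-- lower edges of a right absorber starting at `c`, with right hub `Y` -/
def DR : ℕ → ℤ → ℤ → Set (ℤ × ℤ)
  | 0, c, Y => {(c, Y)}
  | F + 1, c, Y => {(c, Y)} ∪ (Ch F c ∪ DR F (c + 2 ^ F) Y)

/-- upper edges of a right absorber starting at `c`, with left hub `X` -/
def UR (F : ℕ) (c X : ℤ) : Set (ℤ × ℤ) := {p | p.1 = X ∧ c ≤ p.2 ∧ p.2 < c + 2 ^ F}

theorem mem_DR {F : ℕ} {c Y : ℤ} (hY : c + 2 ^ F ≤ Y) {p : ℤ × ℤ} (hp : p ∈ DR F c Y) :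
    c ≤ p.1 ∧ p.1 < p.2 ∧ (p.2 < c + 2 ^ F ∨ p.2 = Y) := by
  induction F generalizing c with
  | zero =>
    rw [DR, mem_singleton_iff] at hp
    subst hp
    simp only [pow_zero] at hY
    exact ⟨le_refl _, by simp only; linarith, Or.inr rfl⟩
  | succ F ih =>
    have h2 : (0 : ℤ) < 2 ^ F := by positivity
    have h3 : (2 : ℤ) ^ (F + 1) = 2 * 2 ^ F := by ring
    rcases hp with hp | hp | hp
    · rw [mem_singleton_iff] at hp
      subst hp
      exact ⟨le_refl _, by simp only; linarith, Or.inr rfl⟩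
    · obtain ⟨h4, h5, h6⟩ := mem_Ch hp
      exact ⟨h4, h5, Or.inl (by linarith)⟩
    · obtain ⟨h4, h5, h6⟩ := ih (by linarith) hp
      refine ⟨by linarith, h5, ?_⟩
      rcases h6 with h6 | h6
      · left; linarith
      · right; exact h6

theorem DR_fst {F : ℕ} {c Y : ℤ} {p : ℤ × ℤ} (hp : p ∈ DR F c Y) :
    p.1 < c + 2 ^ F := by
  induction F generalizing c with
  | zero =>
    rw [DR, mem_singleton_iff] at hp
    subst hp
    simp
  | succ F ih =>
    have h2 : (0 : ℤ) < 2 ^ F := by positivity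
    have h3 : (2 : ℤ) ^ (F + 1) = 2 * 2 ^ F := by ring
    rcases hp with hp | hp | hp
    · rw [mem_singleton_iff] at hp
      subst hp
      simp only
      linarith
    · obtain ⟨h4, h5, h6⟩ := mem_Ch hp
      linarith
    · have := ih hp
      linarith

theorem split3 {I : Finset ℤ} {n : ℕ} (hI : I.card ≤ n + 2) :
    ∃ (A B : Set ℤ) (J : Finset ℤ), A.Subsingleton ∧ B.Subsingleton ∧ J ⊆ I ∧ J.card ≤ n ∧
      ∀ l ∈ I, l ∈ A ∨ l ∈ B ∨ l ∈ J := by
  rcases I.eq_empty_or_nonempty with rfl | ⟨a, ha⟩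
  · exact ⟨∅, ∅, ∅, by simp, by simp, by simp, by simp, by simp⟩
  rcases (I.erase a).eq_empty_or_nonempty with h | ⟨b, hb⟩
  · refine ⟨{a}, ∅, ∅, by simp, by simp, by simp, by simp, ?_⟩
    intro l hl
    left
    by_contra hla
    have : l ∈ I.erase a := Finset.mem_erase.2 ⟨hla, hl⟩
    rw [h] at this
    simp at this
  · refine ⟨{a}, {b}, (I.erase a).erase b, by simp, by simp, ?_, ?_, ?_⟩
    · exact (Finset.erase_subset _ _).trans (Finset.erase_subset _ _)
    · rw [Finset.card_erase_of_mem hb, Finset.card_erase_of_mem ha]; omega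
    · intro l hl
      by_cases h1 : l = a
      · left; exact h1
      · by_cases h2 : l = b
        · right; left; exact h2
        · right; right
          exact Finset.mem_erase.2 ⟨h2, Finset.mem_erase.2 ⟨h1, hl⟩⟩

/-- the absorber routes `F + 2` units from its start to the hubs, besides its own units -/
theorem absorb (F : ℕ) : ∀ (c X Y : ℤ) (I : Finset ℤ), X < c → c + 2 ^ F ≤ Y →
    I.card ≤ F + 2 → (∀ l ∈ I, l ≤ c) →
    ∃ S : ℤ → Set (ℤ × ℤ), Fam (UR F c X ∪ DR F c Y) S ∧
      (∀ l ∈ I, Cn (S l) c X ∨ Cn (S l) c Y) ∧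
      (∀ v, c < v → v < c + 2 ^ F → Cn (S v) v X ∨ Cn (S v) v Y) := by
  induction F with
  | zero =>
    intro c X Y I hX hY hI hle
    obtain ⟨A, B, J, hA, hB, -, hJ, hall⟩ := split3 (n := 0) hI
    have hJ' : J = ∅ := Finset.card_eq_zero.1 (by omega)
    simp only [pow_zero] at hY
    have h0 := (fam_single (X, c) A hA).union (fam_single (c, Y) B hB) (by
      intro p hp hp'
      rw [mem_singleton_iff] at hp hp'
      rw [hp] at hp'
      have := congrArg Prod.fst hp'
      simp only at this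
      omega)
    refine ⟨_, h0.mono ?_, ?_, ?_⟩
    · apply union_subset_union
      · intro p hp
        rw [mem_singleton_iff] at hp
        subst hp
        simp [UR]
      · exact subset_rfl
    · intro l hl
      rcases hall l hl with h | h | h
      · left
        exact (Cn.of_mem (Or.inl ⟨rfl, h⟩)).symm
      · right
        exact Cn.of_mem (Or.inr ⟨rfl, h⟩)
      · rw [hJ'] at h; simp at h
    · intro v hv hv'
      simp only [pow_zero] at hv'
      omega
  | succ F ih =>
    intro c X Y I hX hY hI hle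
    have h2 : (0 : ℤ) < 2 ^ F := by positivity
    have h3 : (2 : ℤ) ^ (F + 1) = 2 * 2 ^ F := by ring
    obtain ⟨A, B, J, hA, hB, hJI, hJ, hall⟩ := split3 (n := F + 1) hI
    obtain ⟨S₁, hS₁, h₁⟩ := band F c J hJ
    have hcard : (insert (c + 2 ^ F) J).card ≤ F + 2 :=
      (Finset.card_insert_le _ _).trans (by omega)
    obtain ⟨S₂, hS₂, h₂, h₂'⟩ := ih (c + 2 ^ F) X Y (insert (c + 2 ^ F) J) (by linarith)
      (by linarith) hcard (by
        intro l hl
        rcases Finset.mem_insert.1 hl with rfl | hl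
        · exact le_refl _
        · have := hle l (hJI hl)
          linarith)
    -- own units of the path vertices of the first band
    have hown : Fam {p : ℤ × ℤ | p.1 = X ∧ c < p.2 ∧ p.2 < c + 2 ^ F}
        (fun l => {p : ℤ × ℤ | p = (X, l) ∧ c < l ∧ l < c + 2 ^ F}) := by
      refine ⟨?_, ?_⟩
      · rintro l p ⟨rfl, h4, h5⟩
        exact ⟨rfl, h4, h5⟩
      · rintro l l' p ⟨rfl, -, -⟩ ⟨h6, -, -⟩
        exact congrArg Prod.snd h6
    have e1 := hS₁.union hS₂ (by
      rintro p hp (hp' | hp')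
      · obtain ⟨h4, h5, h6⟩ := mem_Ch hp
        have := hp'.1
        linarith
      · obtain ⟨h4, h5, h6⟩ := mem_Ch hp
        obtain ⟨h7, -, -⟩ := mem_DR (by linarith) hp'
        linarith)
    have e2 := hown.union e1 (by
      rintro p hp (hp' | hp' | hp')
      · obtain ⟨h4, h5, h6⟩ := mem_Ch hp'
        have := hp.1
        linarith
      · have h4 := hp.2.2
        have h5 := hp'.2.1
        linarith
      · obtain ⟨h7, -, -⟩ := mem_DR (by linarith) hp'
        have := hp.1
        linarith)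
    have e3 := (fam_single (c, Y) B hB).union e2 (by
      rintro p hp (hp' | hp' | hp' | hp')
      · rw [mem_singleton_iff] at hp
        subst hp
        have := hp'.1
        simp only at this
        linarith
      · rw [mem_singleton_iff] at hp
        subst hp
        obtain ⟨h4, h5, h6⟩ := mem_Ch hp'
        simp only at h6
        linarith
      · rw [mem_singleton_iff] at hp
        subst hp
        have := hp'.1
        simp only at this
        linarith
      · rw [mem_singleton_iff] at hp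
        subst hp
        obtain ⟨h7, -, -⟩ := mem_DR (by linarith) hp'
        simp only at h7
        linarith)
    have e4 := (fam_single (X, c) A hA).union e3 (by
      rintro p hp (hp' | hp' | hp' | hp' | hp')
      · rw [mem_singleton_iff] at hp hp'
        rw [hp] at hp'
        have := congrArg Prod.fst hp'
        simp only at this
        omega
      · rw [mem_singleton_iff] at hp
        subst hp
        have := hp'.2.1
        simp only at this
        linarith
      · rw [mem_singleton_iff] at hp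
        subst hp
        obtain ⟨h4, h5, h6⟩ := mem_Ch hp'
        simp only at h4
        linarith
      · rw [mem_singleton_iff] at hp
        subst hp
        have := hp'.2.1
        simp only at this
        linarith
      · rw [mem_singleton_iff] at hp
        subst hp
        obtain ⟨h7, -, -⟩ := mem_DR (by linarith) hp'
        simp only at h7
        linarith)
    refine ⟨_, e4.mono ?_, ?_, ?_⟩
    · rintro p (hp | hp | hp | hp | hp | hp)
      · rw [mem_singleton_iff] at hp
        subst hp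
        exact Or.inl ⟨rfl, le_refl _, by simp only; linarith⟩
      · exact Or.inr (Or.inl hp)
      · exact Or.inl ⟨hp.1, hp.2.1.le, by linarith [hp.2.2]⟩
      · exact Or.inr (Or.inr (Or.inl hp))
      · exact Or.inl ⟨hp.1, by linarith [hp.2.1], by linarith [hp.2.2]⟩
      · exact Or.inr (Or.inr (Or.inr hp))
    · intro l hl
      rcases hall l hl with h | h | h
      · left
        exact (Cn.of_mem (Or.inl ⟨rfl, h⟩)).symm
      · right
        exact Cn.of_mem (Or.inr (Or.inl ⟨rfl, h⟩))
      · have f1 := (h₁ l h).mono (T := _) (fun q hq =>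
          (Or.inr (Or.inr (Or.inr (Or.inl hq))) :
            q ∈ {q | q = (X, c) ∧ l ∈ A} ∪ ({q | q = (c, Y) ∧ l ∈ B} ∪
              ({p | p = (X, l) ∧ c < l ∧ l < c + 2 ^ F} ∪ (S₁ l ∪ S₂ l)))))
        rcases h₂ l (Finset.mem_insert_of_mem h) with h4 | h4
        · left
          exact f1.trans (h4.mono (fun q hq => Or.inr (Or.inr (Or.inr (Or.inr hq)))))
        · right
          exact f1.trans (h4.mono (fun q hq => Or.inr (Or.inr (Or.inr (Or.inr hq)))))
    · intro v hv hv'
      rcases lt_trichotomy v (c + 2 ^ F) with h4 | h4 | h4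
      · left
        exact (Cn.of_mem (Or.inr (Or.inr (Or.inl ⟨rfl, hv, h4⟩)))).symm
      · have h5 := h₂ v (by rw [h4]; exact Finset.mem_insert_self _ _)
        rw [← h4] at h5
        rcases h5 with h5 | h5
        · left
          exact h5.mono (fun q hq => Or.inr (Or.inr (Or.inr (Or.inr hq))))
        · right
          exact h5.mono (fun q hq => Or.inr (Or.inr (Or.inr (Or.inr hq))))
      · have h5 := h₂' v h4 (by linarith)
        rcases h5 with h5 | h5
        · left
          exact h5.mono (fun q hq => Or.inr (Or.inr (Or.inr (Or.inr hq))))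
        · right
          exact h5.mono (fun q hq => Or.inr (Or.inr (Or.inr (Or.inr hq))))

end Pool.Agent.helper90.PathPair
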