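import Pool.Agent.helper90.PathPair.Planar
import Pool.Agent.helper90.PathPair.Route

/-!
# The recursive graphs
-/

open Set

namespace Pool.Agent.helper90.PathPair

/-- rotation by a half turn -/
def rot (S : Set (ℤ × ℤ)) : Set (ℤ × ℤ) := {p | (-p.2, -p.1) ∈ S}

theorem Cn.rot {S : Set (ℤ × ℤ)} {a b : ℤ} (h : Cn S a b) : Cn (rot S) (-a) (-b) := by
  induction h with
  | rel x y hxy =>
    exact (Cn.of_mem (S := PathPair.rot S) (a := -y) (b := -x)
      (show (- -x, - -y) ∈ S by rw [neg_neg, neg_neg]; exact hxy)).symm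
  | refl x => exact Cn.refl _ _
  | symm x y _ ih => exact ih.symm
  | trans x y z _ _ ih1 ih2 => exact ih1.trans ih2

theorem Fam.rot {E : Set (ℤ × ℤ)} {S : ℤ → Set (ℤ × ℤ)} (h : Fam E S) :
    Fam (rot E) (fun l => rot (S (-l))) := by
  refine ⟨fun l p hp => h.1 _ hp, fun l l' p hp hp' => ?_⟩
  have := h.2 _ _ _ hp hp'
  exact neg_injective this

/-- half width of the `k`-th graph -/
def sz : ℕ → ℕ
  | 0 => 1
  | k + 1 => sz k + 2 ^ (2 * sz k)

theorem sz_pos (k : ℕ) : 0 < sz k := by
  induction k with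
  | zero => simp [sz]
  | succ k ih => exact Nat.add_pos_left ih _

theorem sz_succ (k : ℕ) : (sz (k + 1) : ℤ) = sz k + 2 ^ (2 * sz k) := by
  rw [sz]; push_cast; ring

/-- upper edges of the `k`-th graph with hubs `X`, `Y` -/
def Up : ℕ → ℤ → ℤ → Set (ℤ × ℤ)
  | 0, X, _ => {(X, 0)}
  | k + 1, X, _ => Up k (-sz k) (sz k) ∪
      (UR (2 * sz k) (sz k) X ∪ rot (DR (2 * sz k) (sz k) (-X)))

/-- lower edges of the `k`-th graph with hubs `X`, `Y` -/
def Dn : ℕ → ℤ → ℤ → Set (ℤ × ℤ)
  | 0, _, Y => {(0, Y)}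
  | k + 1, _, Y => Dn k (-sz k) (sz k) ∪
      (DR (2 * sz k) (sz k) Y ∪ rot (UR (2 * sz k) (sz k) (-Y)))

/-- all edges of the `k`-th graph with hubs `X`, `Y` -/
def Ed (k : ℕ) (X Y : ℤ) : Set (ℤ × ℤ) := Up k X Y ∪ Dn k X Y

theorem mem_rot_UR {F : ℕ} {c X : ℤ} {p : ℤ × ℤ} :
    p ∈ rot (UR F c (-X)) ↔ p.2 = X ∧ p.1 ≤ -c ∧ -c - 2 ^ F < p.1 := by
  constructor
  · rintro ⟨h1, h2, h3⟩
    simp only at h1 h2 h3
    exact ⟨by linarith, by linarith, by linarith⟩
  · rintro ⟨h1, h2, h3⟩
    exact ⟨by simp only; linarith, by simp only; linarith, by simp only; linarith⟩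

theorem mem_rot_DR {F : ℕ} {c X : ℤ} (hX : X ≤ -c - 2 ^ F) {p : ℤ × ℤ}
    (hp : p ∈ rot (DR F c (-X))) :
    p.2 ≤ -c ∧ p.1 < p.2 ∧ (-c - 2 ^ F < p.1 ∨ p.1 = X) := by
  obtain ⟨h1, h2, h3⟩ := mem_DR (Y := -X) (by linarith) hp
  simp only at h1 h2 h3
  refine ⟨by linarith, by linarith, ?_⟩
  rcases h3 with h3 | h3
  · left; linarith
  · right; linarith

theorem mem_Up {k : ℕ} {X Y : ℤ} (hX : X ≤ -sz k) {p : ℤ × ℤ} (hp : p ∈ Up k X Y) :
    p.1 < p.2 ∧ X ≤ p.1 ∧ p.2 < sz k ∧ (p.1 = X ∨ -sz k < p.1) := by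
  induction k generalizing X Y with
  | zero =>
    rw [Up, mem_singleton_iff] at hp
    subst hp
    simp only [sz, Nat.cast_one] at hX ⊢
    exact ⟨by linarith, le_refl _, by norm_num, by simp⟩
  | succ k ih =>
    have h1 := sz_succ k
    have h2 : (0 : ℤ) < 2 ^ (2 * sz k) := by positivity
    have h3 : (0 : ℤ) < sz k := by exact_mod_cast sz_pos k
    rcases hp with hp | hp | hp
    · obtain ⟨h4, h5, h6, -⟩ := ih (le_refl _) hp
      exact ⟨h4, by linarith, by linarith, Or.inr (by linarith)⟩
    · obtain ⟨h4, h5, h6⟩ := hp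
      exact ⟨by linarith, h4.ge, by linarith, Or.inl h4⟩
    · obtain ⟨h4, h5, h6⟩ := mem_rot_DR (by linarith) hp
      refine ⟨h5, ?_, by linarith, ?_⟩
      · rcases h6 with h6 | h6 <;> linarith
      · rcases h6 with h6 | h6
        · right; linarith
        · left; exact h6

theorem mem_Dn {k : ℕ} {X Y : ℤ} (hY : (sz k : ℤ) ≤ Y) {p : ℤ × ℤ} (hp : p ∈ Dn k X Y) :
    p.1 < p.2 ∧ p.2 ≤ Y ∧ -sz k < p.1 ∧ (p.2 = Y ∨ p.2 < sz k) ∧ p.1 < sz k := by
  induction k generalizing X Y with
  | zero =>
    rw [Dn, mem_singleton_iff] at hp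
    subst hp
    simp only [sz, Nat.cast_one] at hY ⊢
    exact ⟨by linarith, le_refl _, by norm_num, by simp, by norm_num⟩
  | succ k ih =>
    have h1 := sz_succ k
    have h2 : (0 : ℤ) < 2 ^ (2 * sz k) := by positivity
    have h3 : (0 : ℤ) < sz k := by exact_mod_cast sz_pos k
    rcases hp with hp | hp | hp
    · obtain ⟨h4, h5, h6, -⟩ := ih (le_refl _) hp
      exact ⟨h4, by linarith, by linarith, Or.inr (by linarith), by linarith⟩
    · have h7 := DR_fst hp
      obtain ⟨h4, h5, h6⟩ := mem_DR (by linarith) hp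
      refine ⟨h5, ?_, by linarith, ?_, by linarith⟩
      · rcases h6 with h6 | h6 <;> linarith
      · rcases h6 with h6 | h6
        · right; linarith
        · left; exact h6
    · rw [mem_rot_UR] at hp
      obtain ⟨h4, h5, h6⟩ := hp
      exact ⟨by linarith, h4.le, by linarith, Or.inl h4, by linarith⟩

theorem mem_Ed_inner {k : ℕ} {p : ℤ × ℤ} (hp : p ∈ Ed k (-sz k) (sz k)) :
    -(sz k : ℤ) ≤ p.1 ∧ p.1 < p.2 ∧ p.2 ≤ sz k := by
  rcases hp with hp | hp
  · obtain ⟨h1, h2, h3, -⟩ := mem_Up (le_refl _) hp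
    exact ⟨h2, h1, h3.le⟩
  · obtain ⟨h1, h2, h3, -⟩ := mem_Dn (le_refl _) hp
    exact ⟨h3.le, h1, h2⟩

/-- every inner vertex can be routed to a hub, edge-disjointly -/
theorem route (k : ℕ) : ∀ X Y : ℤ, X ≤ -sz k → (sz k : ℤ) ≤ Y →
    ∃ S : ℤ → Set (ℤ × ℤ), Fam (Ed k X Y) S ∧
      ∀ v, -(sz k : ℤ) < v → v < sz k → Cn (S v) v X ∨ Cn (S v) v Y := by
  induction k with
  | zero =>
    intro X Y hX hY
    refine ⟨_, (fam_single (X, 0) ({0} : Set ℤ) subsingleton_singleton).mono ?_, ?_⟩
    · exact subset_union_left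
    · intro v hv hv'
      simp only [sz, Nat.cast_one] at hv hv'
      have h0 : v = 0 := by omega
      subst h0
      left
      exact (Cn.of_mem (show (X, (0 : ℤ)) ∈ {q : ℤ × ℤ | q = (X, 0) ∧ (0 : ℤ) ∈ ({0} : Set ℤ)} from
        ⟨rfl, rfl⟩)).symm
  | succ k ih =>
    intro X Y hX hY
    classical
    have h1 := sz_succ k
    have h2 : (0 : ℤ) < 2 ^ (2 * sz k) := by positivity
    have h3 : (0 : ℤ) < sz k := by exact_mod_cast sz_pos k
    obtain ⟨S₀, hS₀, h₀⟩ := ih (-sz k) (sz k) (le_refl _) (le_refl _)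
    -- units at the right end
    obtain ⟨S₁, hS₁, h₁, h₁'⟩ := absorb (2 * sz k) (sz k) X Y
      (Finset.Ioc (-(sz k : ℤ)) (sz k)) (by linarith) (by linarith)
      (by rw [Int.card_Ioc]; omega)
      (fun l hl => (Finset.mem_Ioc.1 hl).2)
    obtain ⟨S₂, hS₂, h₂, h₂'⟩ := absorb (2 * sz k) (sz k) (-Y) (-X)
      (Finset.Ioc (-(sz k : ℤ)) (sz k)) (by linarith) (by linarith)
      (by rw [Int.card_Ioc]; omega)
      (fun l hl => (Finset.mem_Ioc.1 hl).2)
    have hS₂' := hS₂.rot
    have e1 := hS₁.union hS₂' (by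
      rintro p (hp | hp) (hp' | hp')
      · have hp'' := mem_rot_UR.1 hp'
        obtain ⟨h4, h5, h6⟩ := hp
        linarith [hp''.1]
      · obtain ⟨h4, h5, h6⟩ := hp
        obtain ⟨h7, h8, h9⟩ := mem_rot_DR (by linarith) hp'
        linarith
      · have hp'' := mem_rot_UR.1 hp'
        obtain ⟨h4, h5, h6⟩ := mem_DR (by linarith) hp
        linarith [hp''.2.1]
      · obtain ⟨h4, h5, h6⟩ := mem_DR (by linarith) hp
        obtain ⟨h7, h8, h9⟩ := mem_rot_DR (by linarith) hp'
        linarith)
    have e2 := hS₀.union e1 (by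
      rintro p hp hp'
      obtain ⟨h4, h5, h6⟩ := mem_Ed_inner hp
      rcases hp' with (hp' | hp') | (hp' | hp')
      · linarith [hp'.1]
      · obtain ⟨h7, h8, h9⟩ := mem_DR (by linarith) hp'
        linarith
      · have hp'' := mem_rot_UR.1 hp'
        linarith [hp''.1]
      · obtain ⟨h7, h8, h9⟩ := mem_rot_DR (by linarith) hp'
        linarith)
    refine ⟨_, e2.mono ?_, ?_⟩
    · rintro p ((hp | hp) | (hp | hp) | (hp | hp))
      · exact Or.inl (Or.inl hp)
      · exact Or.inr (Or.inl hp)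
      · exact Or.inl (Or.inr (Or.inl hp))
      · exact Or.inr (Or.inr (Or.inl hp))
      · exact Or.inr (Or.inr (Or.inr hp))
      · exact Or.inl (Or.inr (Or.inr hp))
    · intro v hv hv'
      have m0 : S₀ v ⊆ S₀ v ∪ (S₁ v ∪ rot (S₂ (-v))) := fun q hq => Or.inl hq
      have m1 : S₁ v ⊆ S₀ v ∪ (S₁ v ∪ rot (S₂ (-v))) := fun q hq => Or.inr (Or.inl hq)
      have m2 : rot (S₂ (-v)) ⊆ S₀ v ∪ (S₁ v ∪ rot (S₂ (-v))) := fun q hq => Or.inr (Or.inr hq)
      -- units at the right end
      have right : ∀ v, -(sz k : ℤ) < v → v ≤ sz k → Cn (S₁ v) (sz k) X ∨ Cn (S₁ v) (sz k) Y :=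
        fun v h4 h5 => h₁ v (Finset.mem_Ioc.2 ⟨h4, h5⟩)
      have left : ∀ v, -(sz k : ℤ) ≤ v → v < sz k →
          Cn (rot (S₂ (-v))) (-sz k) X ∨ Cn (rot (S₂ (-v))) (-sz k) Y := by
        intro v h4 h5
        rcases h₂ (-v) (Finset.mem_Ioc.2 ⟨by linarith, by linarith⟩) with h6 | h6
        · right
          have := h6.rot
          rwa [neg_neg] at this
        · left
          have := h6.rot
          rwa [neg_neg] at this
      rcases lt_or_ge v (sz k) with h4 | h4
      · rcases lt_or_ge (-(sz k : ℤ)) v with h5 | h5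
        · rcases h₀ v h5 h4 with h6 | h6
          · rcases left v h5.le h4 with h7 | h7
            · left; exact (h6.mono m0).trans (h7.mono m2)
            · right; exact (h6.mono m0).trans (h7.mono m2)
          · rcases right v h5 h4.le with h7 | h7
            · left; exact (h6.mono m0).trans (h7.mono m1)
            · right; exact (h6.mono m0).trans (h7.mono m1)
        · rcases eq_or_lt_of_le h5 with h6 | h6
          · rcases left v h6.ge h4 with h7 | h7
            · left
              have h8 := h7.mono m2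
              rwa [← h6] at h8
            · right
              have h8 := h7.mono m2
              rwa [← h6] at h8
          · have h8 := h₂' (-v) (by linarith) (by linarith)
            rcases h8 with h7 | h7
            · right
              have := h7.rot
              rw [neg_neg, neg_neg] at this
              exact this.mono m2
            · left
              have := h7.rot
              rw [neg_neg, neg_neg] at this
              exact this.mono m2
      · rcases eq_or_lt_of_le h4 with h6 | h6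
        · have h8 := right v (by linarith) h6.ge
          rcases h8 with h7 | h7
          · left; rw [h6] at h7; exact h7.mono m1
          · right; rw [h6] at h7; exact h7.mono m1
        · have h8 := h₁' v (by linarith) (by linarith)
          rcases h8 with h7 | h7
          · left; exact h7.mono m1
          · right; exact h7.mono m1

theorem nonCr_Ch (f : ℕ) (a : ℤ) : NonCr (Ch f a) := by
  induction f generalizing a with
  | zero =>
    rintro p hp q hq ⟨h1, -, -⟩
    rw [Ch, mem_singleton_iff] at hp hq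
    rw [hp, hq] at h1
    exact lt_irrefl _ h1
  | succ f ih =>
    have h2 : (0 : ℤ) < 2 ^ f := by positivity
    have h3 : (2 : ℤ) ^ (f + 1) = 2 * 2 ^ f := by ring
    rintro p hp q hq ⟨h4, h5, h6⟩
    have b : ∀ r, r ∈ Ch (f + 1) a → a ≤ r.1 ∧ r.1 < r.2 ∧ r.2 ≤ a + 2 ^ (f + 1) :=
      fun r hr => mem_Ch hr
    have bp := b p hp
    have bq := b q hq
    rcases hp with hp | hp | hp
    · rw [mem_singleton_iff] at hp
      have := congrArg Prod.snd hp
      simp only at this
      linarith
    · rcases hq with hq | hq | hq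
      · rw [mem_singleton_iff] at hq
        have := congrArg Prod.fst hq
        simp only at this
        linarith
      · exact ih _ p hp q hq ⟨h4, h5, h6⟩
      · have := mem_Ch hp
        have := mem_Ch hq
        linarith
    · rcases hq with hq | hq | hq
      · rw [mem_singleton_iff] at hq
        have := congrArg Prod.fst hq
        simp only at this
        linarith
      · have := mem_Ch hp
        have := mem_Ch hq
        linarith
      · exact ih _ p hp q hq ⟨h4, h5, h6⟩

theorem nonCr_DR (F : ℕ) (c Y : ℤ) (hY : c + 2 ^ F ≤ Y) : NonCr (DR F c Y) := by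
  induction F generalizing c with
  | zero =>
    rintro p hp q hq ⟨h1, -, -⟩
    rw [DR, mem_singleton_iff] at hp hq
    rw [hp, hq] at h1
    exact lt_irrefl _ h1
  | succ F ih =>
    have h2 : (0 : ℤ) < 2 ^ F := by positivity
    have h3 : (2 : ℤ) ^ (F + 1) = 2 * 2 ^ F := by ring
    rintro p hp q hq ⟨h4, h5, h6⟩
    have bp := mem_DR hY hp
    have bq := mem_DR hY hq
    rcases hp with hp | hp | hp
    · rw [mem_singleton_iff] at hp
      have := congrArg Prod.snd hp
      simp only at this
      rcases bq.2.2 with h7 | h7 <;> linarith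
    · rcases hq with hq | hq | hq
      · rw [mem_singleton_iff] at hq
        have := congrArg Prod.fst hq
        simp only at this
        linarith
      · exact nonCr_Ch _ _ p hp q hq ⟨h4, h5, h6⟩
      · have := mem_Ch hp
        have := mem_DR (by linarith) hq
        linarith
    · rcases hq with hq | hq | hq
      · rw [mem_singleton_iff] at hq
        have := congrArg Prod.fst hq
        simp only at this
        linarith
      · have := mem_DR (by linarith) hp
        have := mem_Ch hq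
        linarith
      · exact ih _ (by linarith) p hp q hq ⟨h4, h5, h6⟩

theorem nonCr_UR (F : ℕ) (c X : ℤ) : NonCr (UR F c X) := by
  rintro p hp q hq ⟨h1, -, -⟩
  rw [hp.1, hq.1] at h1
  exact lt_irrefl _ h1

theorem NonCr.rot {S : Set (ℤ × ℤ)} (h : NonCr S) : NonCr (rot S) := by
  rintro p hp q hq ⟨h1, h2, h3⟩
  exact h _ hq _ hp ⟨by simp only; linarith, by simp only; linarith, by simp only; linarith⟩

theorem nonCr_Up (k : ℕ) : ∀ X Y : ℤ, X ≤ -sz k → NonCr (Up k X Y) := by
  induction k with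
  | zero =>
    rintro X Y - p hp q hq ⟨h1, -, -⟩
    rw [Up, mem_singleton_iff] at hp hq
    rw [hp, hq] at h1
    exact lt_irrefl _ h1
  | succ k ih =>
    rintro X Y hX p hp q hq ⟨i1, i2, i3⟩
    have h1 := sz_succ k
    have h2 : (0 : ℤ) < 2 ^ (2 * sz k) := by positivity
    have h3 : (0 : ℤ) < sz k := by exact_mod_cast sz_pos k
    have bp := mem_Up hX hp
    have bq := mem_Up hX hq
    rcases hp with hp | hp | hp <;> rcases hq with hq | hq | hq
    · exact ih _ _ (le_refl _) p hp q hq ⟨i1, i2, i3⟩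
    · have := hq.1
      linarith [bp.2.1]
    · have := mem_Up (le_refl _) hp
      have := mem_rot_DR (by linarith) hq
      linarith
    · have := mem_Up (le_refl _) hq
      have := hp.2.1
      linarith
    · exact nonCr_UR _ _ _ p hp q hq ⟨i1, i2, i3⟩
    · have := mem_rot_DR (by linarith) hq
      have := hp.2.1
      linarith
    · have := mem_Up (le_refl _) hq
      have := mem_rot_DR (by linarith) hp
      linarith
    · have := hq.1
      linarith [bp.2.1]
    · exact (nonCr_DR _ _ _ (by linarith)).rot p hp q hq ⟨i1, i2, i3⟩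

theorem nonCr_Dn (k : ℕ) : ∀ X Y : ℤ, (sz k : ℤ) ≤ Y → NonCr (Dn k X Y) := by
  induction k with
  | zero =>
    rintro X Y - p hp q hq ⟨h1, -, -⟩
    rw [Dn, mem_singleton_iff] at hp hq
    rw [hp, hq] at h1
    exact lt_irrefl _ h1
  | succ k ih =>
    rintro X Y hY p hp q hq ⟨i1, i2, i3⟩
    have h1 := sz_succ k
    have h2 : (0 : ℤ) < 2 ^ (2 * sz k) := by positivity
    have h3 : (0 : ℤ) < sz k := by exact_mod_cast sz_pos k
    have bp := mem_Dn hY hp
    have bq := mem_Dn hY hq
    rcases hp with hp | hp | hp <;> rcases hq with hq | hq | hq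
    · exact ih _ _ (le_refl _) p hp q hq ⟨i1, i2, i3⟩
    · have := mem_Dn (le_refl _) hp
      have := mem_DR (by linarith) hq
      linarith
    · have := mem_Dn (le_refl _) hp
      have := mem_rot_UR.1 hq
      linarith
    · have := mem_Dn (le_refl _) hq
      have := mem_DR (by linarith) hp
      linarith
    · exact nonCr_DR _ _ _ (by linarith) p hp q hq ⟨i1, i2, i3⟩
    · have := mem_DR (by linarith) hp
      have := mem_rot_UR.1 hq
      linarith
    · have := mem_Dn (le_refl _) hq
      have := mem_rot_UR.1 hp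
      linarith
    · have := mem_rot_UR.1 hp
      linarith
    · exact (nonCr_UR _ _ _).rot p hp q hq ⟨i1, i2, i3⟩

/-- level function -/
def lev : ℕ → ℤ → ℕ
  | 0, z => if |z| < sz 0 then 1 else 0
  | k + 1, z => lev k z + if |z| < sz (k + 1) then 1 else 0

theorem lev_zero {k : ℕ} {z : ℤ} (hz : (sz k : ℤ) ≤ |z|) : lev k z = 0 := by
  induction k with
  | zero => rw [lev, if_neg (by linarith)]
  | succ k ih =>
    have h1 := sz_succ k
    have h2 : (0 : ℤ) < 2 ^ (2 * sz k) := by positivity
    rw [lev, if_neg (by linarith), ih (by linarith)]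

theorem lev_succ {k : ℕ} {z : ℤ} (hz : |z| ≤ sz k) : lev (k + 1) z = lev k z + 1 := by
  have h1 := sz_succ k
  have h2 : (0 : ℤ) < 2 ^ (2 * sz k) := by positivity
  rw [lev, if_pos (by linarith)]

theorem lev_le_one {k : ℕ} {z : ℤ} (hz : (sz k : ℤ) ≤ |z|) : lev (k + 1) z ≤ 1 := by
  rw [lev, lev_zero hz]
  split_ifs <;> simp

theorem lev_origin (k : ℕ) : lev k 0 = k + 1 := by
  induction k with
  | zero => simp [lev, sz]
  | succ k ih =>
    rw [lev_succ (by simp), ih]

theorem lip (k : ℕ) : ∀ X Y : ℤ, X ≤ -sz k → (sz k : ℤ) ≤ Y → ∀ p ∈ Ed k X Y,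
    lev k p.1 ≤ lev k p.2 + 1 ∧ lev k p.2 ≤ lev k p.1 + 1 := by
  induction k with
  | zero =>
    rintro X Y hX hY p (hp | hp)
    · rw [Up, mem_singleton_iff] at hp
      subst hp
      have h1 : lev 0 (0 : ℤ) = 1 := lev_origin 0
      have h2 : lev 0 X = 0 := lev_zero (by rw [le_abs]; right; linarith)
      simp [h1, h2]
    · rw [Dn, mem_singleton_iff] at hp
      subst hp
      have h1 : lev 0 (0 : ℤ) = 1 := lev_origin 0
      have h2 : lev 0 Y = 0 := lev_zero (by rw [le_abs]; left; linarith)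
      simp [h1, h2]
  | succ k ih =>
    intro X Y hX hY p hp
    have h1 := sz_succ k
    have h2 : (0 : ℤ) < 2 ^ (2 * sz k) := by positivity
    have h3 : (0 : ℤ) < sz k := by exact_mod_cast sz_pos k
    have far : (sz k : ℤ) ≤ |p.1| → (sz k : ℤ) ≤ |p.2| →
        lev (k + 1) p.1 ≤ lev (k + 1) p.2 + 1 ∧ lev (k + 1) p.2 ≤ lev (k + 1) p.1 + 1 := by
      intro h4 h5
      have := lev_le_one h4
      have := lev_le_one h5
      omega
    have near : p ∈ Ed k (-sz k) (sz k) →
        lev (k + 1) p.1 ≤ lev (k + 1) p.2 + 1 ∧ lev (k + 1) p.2 ≤ lev (k + 1) p.1 + 1 := by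
      intro hp
      have h4 := mem_Ed_inner hp
      have h5 := ih _ _ (le_refl _) (le_refl _) p hp
      rw [lev_succ (z := p.1) (by rw [abs_le]; constructor <;> linarith),
        lev_succ (z := p.2) (by rw [abs_le]; constructor <;> linarith)]
      omega
    rcases hp with (hp | hp | hp) | (hp | hp | hp)
    · exact near (Or.inl hp)
    · apply far
      · rw [hp.1, le_abs]; right; linarith
      · rw [le_abs]; left; exact hp.2.1
    · have h4 := mem_rot_DR (by linarith) hp
      apply far
      · rw [le_abs]; right; linarith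
      · rw [le_abs]; right; linarith
    · exact near (Or.inr hp)
    · have h4 := mem_DR (by linarith) hp
      apply far
      · rw [le_abs]; left; linarith
      · rw [le_abs]; left; linarith
    · have h4 := mem_rot_UR.1 hp
      apply far
      · rw [le_abs]; right; linarith
      · rw [le_abs]; left; linarith

end Pool.Agent.helper90.PathPair
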