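import Pool.Agent.helper90.PathPair.Final

/-!
# Path-pairable planar graphs of unbounded diameter
-/

open Set

namespace Pool.Agent.helper90.PathPair

/-- vertices -/
abbrev VV (k B : ℕ) : Type := Finset.Icc (-(sz k : ℤ)) (YY k B)

/-- the graph with a given set of edges -/
def gr (k B : ℕ) (P : Set (ℤ × ℤ)) (hP : P ⊆ UF k B ∪ DF k B) : SimpleGraph (VV k B) where
  Adj u v := ((u : ℤ), (v : ℤ)) ∈ P ∨ ((v : ℤ), (u : ℤ)) ∈ P
  symm := ⟨fun _ _ h => h.symm⟩
  loopless := ⟨fun u h => by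
    have h' : ((u : ℤ), (u : ℤ)) ∈ P := h.elim id id
    exact lt_irrefl _ (mem_F (hP h')).2.1⟩

variable {k B : ℕ}

theorem reach_of_cn {P : Set (ℤ × ℤ)} (hP : P ⊆ UF k B ∪ DF k B) {a b : ℤ} (h : Cn P a b) :
    a = b ∨ ∃ (ha : a ∈ Finset.Icc (-(sz k : ℤ)) (YY k B))
      (hb : b ∈ Finset.Icc (-(sz k : ℤ)) (YY k B)), (gr k B P hP).Reachable ⟨a, ha⟩ ⟨b, hb⟩ := by
  induction h with
  | rel x y hxy =>
    right
    obtain ⟨h1, h2, h3⟩ := mem_F (hP hxy)
    refine ⟨Finset.mem_Icc.2 ⟨h1, by linarith⟩, Finset.mem_Icc.2 ⟨by linarith, h3⟩, ?_⟩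
    exact SimpleGraph.Adj.reachable (Or.inl hxy)
  | refl x => exact Or.inl rfl
  | symm x y _ ih =>
    rcases ih with rfl | ⟨h1, h2, h3⟩
    · exact Or.inl rfl
    · exact Or.inr ⟨h2, h1, h3.symm⟩
  | trans x y z _ _ ih1 ih2 =>
    rcases ih1 with rfl | ⟨h1, h2, h3⟩
    · exact ih2
    · rcases ih2 with rfl | ⟨h4, h5, h6⟩
      · exact Or.inr ⟨h1, h2, h3⟩
      · exact Or.inr ⟨h1, h5, h3.trans h6⟩

theorem reach_of_cn' {P : Set (ℤ × ℤ)} (hP : P ⊆ UF k B ∪ DF k B) {a b : VV k B}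
    (h : Cn P a b) : (gr k B P hP).Reachable a b := by
  rcases reach_of_cn hP h with h1 | ⟨h1, h2, h3⟩
  · rw [Subtype.ext h1]
  · exact h3

theorem gr_le {P Q : Set (ℤ × ℤ)} (hP : P ⊆ UF k B ∪ DF k B) (hQ : Q ⊆ UF k B ∪ DF k B)
    (h : P ⊆ Q) : gr k B P hP ≤ gr k B Q hQ := by
  intro u v huv
  exact huv.imp (fun h' => h h') (fun h' => h h')

/-- the graphs -/
def GG (k B : ℕ) : SimpleGraph (VV k B) := gr k B (UF k B ∪ DF k B) subset_rfl

theorem GG_planar (k B : ℕ) : IsPlanar (GG k B) := by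
  refine planar_of_book _ (fun v => (v : ℤ)) Subtype.val_injective (UF k B) (DF k B)
    nonCr_UF nonCr_DF ?_
  intro u v huv hlt
  rcases huv with h | h
  · exact h
  · have := (mem_F h).2.1
    simp only at this
    exact absurd this (not_lt.2 hlt.le)

theorem GG_connected (k B : ℕ) (hB : 1 ≤ B) : (GG k B).Connected := by
  have hY := sz_le_YY (k := k) (B := B)
  have h0 := sz_pos' (k := k)
  have hYd : YY k B = sz k + 3 * B := rfl
  have hB' : (1 : ℤ) ≤ B := by exact_mod_cast hB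
  obtain ⟨S₀, hS₀, hr⟩ := route k (-sz k) (YY k B) (le_refl _) hY
  have hXY : Cn (UF k B ∪ DF k B) (-(sz k : ℤ)) (YY k B) := by
    have a1 : Cn (UF k B ∪ DF k B) (-(sz k : ℤ)) (sz k) :=
      Cn.of_mem (Or.inl (Or.inr ⟨rfl, le_refl _, by simp only; linarith⟩))
    have a2 : Cn (UF k B ∪ DF k B) (sz k) (YY k B) :=
      Cn.of_mem (Or.inr (Or.inr (Or.inl ⟨rfl, le_refl _, by simp only; linarith⟩)))
    exact a1.trans a2
  have key : ∀ v : ℤ, -(sz k : ℤ) ≤ v → v ≤ YY k B → Cn (UF k B ∪ DF k B) v (-(sz k : ℤ)) := by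
    intro v h1 h2
    rcases eq_or_lt_of_le h1 with h3 | h3
    · rw [h3]; exact Cn.refl _ _
    · rcases eq_or_lt_of_le h2 with h4 | h4
      · rw [h4]; exact hXY.symm
      · rcases lt_or_ge v (sz k) with h5 | h5
        · have hsub : S₀ v ⊆ UF k B ∪ DF k B := by
            intro p hp
            rcases hS₀.1 v hp with h6 | h6
            · exact Or.inl (Or.inl h6)
            · exact Or.inr (Or.inl h6)
          rcases hr v h3 h5 with h6 | h6
          · exact h6.mono hsub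
          · exact (h6.mono hsub).trans hXY.symm
        · exact (Cn.of_mem (Or.inl (Or.inr ⟨rfl, h5, h4⟩))).symm
  have hne : Nonempty (VV k B) := ⟨⟨-(sz k : ℤ), Finset.mem_Icc.2 ⟨le_refl _, by linarith⟩⟩⟩
  refine { preconnected := ?_, nonempty := hne }
  intro u v
  have hu := Finset.mem_Icc.1 u.2
  have hv := Finset.mem_Icc.1 v.2
  exact reach_of_cn' subset_rfl ((key u hu.1 hu.2).trans (key v hv.1 hv.2).symm)

theorem walk_lev {u v : VV k B} (w : (GG k B).Walk u v) : lev k u ≤ lev k v + w.length := by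
  induction w with
  | nil => simp
  | cons h p ih =>
    rename_i a b c
    have h1 : lev k (a : ℤ) ≤ lev k (b : ℤ) + 1 := by
      rcases h with h | h
      · exact (lip_F h).1
      · exact (lip_F h).2
    rw [SimpleGraph.Walk.length_cons]
    omega

theorem GG_diam (k B : ℕ) (hB : 1 ≤ B) : k + 1 ≤ (GG k B).diam := by
  have hY := sz_le_YY (k := k) (B := B)
  have h0 := sz_pos' (k := k)
  have hconn := GG_connected k B hB
  have hne : (GG k B).ediam ≠ ⊤ := by
    have := hconn.nonempty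
    exact SimpleGraph.connected_iff_ediam_ne_top.1 hconn
  set u : VV k B := ⟨0, Finset.mem_Icc.2 ⟨by linarith, by linarith⟩⟩
  set v : VV k B := ⟨-(sz k : ℤ), Finset.mem_Icc.2 ⟨le_refl _, by linarith⟩⟩
  obtain ⟨w, hw⟩ := hconn.exists_walk_length_eq_dist u v
  have h1 := walk_lev w
  have h2 : lev k (u : ℤ) = k + 1 := lev_origin k
  have h3 : lev k (v : ℤ) = 0 := lev_zero (by
    show (sz k : ℤ) ≤ |(-(sz k : ℤ))|
    rw [le_abs]; right; linarith)
  calc k + 1 ≤ w.length := by omega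
    _ = (GG k B).dist u v := hw
    _ ≤ _ := SimpleGraph.dist_le_diam hne

theorem exists_path {P : Set (ℤ × ℤ)} (hP : P ⊆ UF k B ∪ DF k B) {a b : VV k B}
    (h : Cn P a b) : ∃ w : (GG k B).Path a b, ∀ e ∈ w.1.edges,
      ∃ x y : VV k B, e = s(x, y) ∧ ((x : ℤ), (y : ℤ)) ∈ P := by
  classical
  obtain ⟨w⟩ := reach_of_cn' hP h
  have hle : gr k B P hP ≤ GG k B := gr_le hP subset_rfl hP
  refine ⟨(w.mapLe hle).toPath, ?_⟩
  intro e he
  have h1 := SimpleGraph.Walk.edges_toPath_subset_edges _ he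
  have h2 : e ∈ w.edges := by
    rw [SimpleGraph.Walk.mapLe, SimpleGraph.Walk.edges_map] at h1
    simpa using h1
  have h3 := w.edges_subset_edgeSet h2
  induction e using Sym2.ind with
  | _ x y =>
    rw [SimpleGraph.mem_edgeSet] at h3
    rcases h3 with h3 | h3
    · exact ⟨x, y, rfl, h3⟩
    · exact ⟨y, x, Sym2.eq_swap, h3⟩

theorem GG_pathPairable (k B : ℕ) (hB : 6 * (2 * sz k + 1) ≤ B) (hodd : Odd B) :
    IsPathPairable (GG k B) := by
  classical
  have hY := sz_le_YY (k := k) (B := B)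
  have h0 := sz_pos' (k := k)
  have hYd : YY k B = sz k + 3 * B := rfl
  constructor
  · rw [Fintype.card_coe, Int.card_Icc]
    obtain ⟨c, hc⟩ := hodd
    refine ⟨sz k + 3 * c + 2, ?_⟩
    rw [hYd, hc]
    push_cast
    omega
  · intro m s' t' hbij
    set e := Equiv.ofBijective _ hbij with he
    have hes : ∀ i, e (Sum.inl i) = s' i := fun i => rfl
    have het : ∀ i, e (Sum.inr i) = t' i := fun i => rfl
    set τ : VV k B → VV k B := fun v => e (Sum.swap (e.symm v)) with hτ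
    have hττ : ∀ v, τ (τ v) = v := by
      intro v
      simp [hτ]
    have hτs : ∀ i, τ (s' i) = t' i := by
      intro i
      rw [hτ]
      simp only
      rw [← hes i, Equiv.symm_apply_apply]
      rfl
    set σ : ℤ → ℤ := fun z => if hz : z ∈ Finset.Icc (-(sz k : ℤ)) (YY k B) then
      (τ ⟨z, hz⟩ : ℤ) else z with hσ
    have hσv : ∀ v : VV k B, σ v = τ v := by
      intro v
      rw [hσ]
      simp only
      rw [dif_pos v.2]
    obtain ⟨S, hS, hSc⟩ := final_route hB σ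
      (by
        intro z h1 h2
        have h3 := hσv ⟨z, Finset.mem_Icc.2 ⟨h1, h2⟩⟩
        simp only at h3
        rw [h3]
        exact Finset.mem_Icc.1 (τ _).2)
      (by
        intro z h1 h2
        have h3 := hσv ⟨z, Finset.mem_Icc.2 ⟨h1, h2⟩⟩
        simp only at h3
        rw [h3, hσv, hττ])
    set lab : Fin m → ℤ := fun i => min (s' i : ℤ) (t' i) with hlab
    have hlabinj : ∀ i j, lab i = lab j → i = j := by
      intro i j hij
      rw [hlab] at hij
      simp only at hij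
      have hinj := hbij.1
      rcases min_choice (s' i : ℤ) (t' i) with h1 | h1 <;>
        rcases min_choice (s' j : ℤ) (t' j) with h2 | h2 <;> rw [h1, h2] at hij <;>
        have h3 := Subtype.ext hij
      · exact Sum.inl_injective (hinj (a₁ := Sum.inl i) (a₂ := Sum.inl j) h3)
      · exact absurd (hinj (a₁ := Sum.inl i) (a₂ := Sum.inr j) h3) (by simp)
      · exact absurd (hinj (a₁ := Sum.inr i) (a₂ := Sum.inl j) h3) (by simp)
      · exact Sum.inr_injective (hinj (a₁ := Sum.inr i) (a₂ := Sum.inr j) h3)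
    have hc : ∀ i, Cn (S (lab i)) (s' i : ℤ) (t' i) := by
      intro i
      have h1 := Finset.mem_Icc.1 (s' i).2
      have h2 := hSc (s' i) h1.1 h1.2
      rw [hσv, hτs] at h2
      exact h2
    choose P hPe using fun i => exists_path (hS.1 (lab i)) (hc i)
    refine ⟨P, ?_⟩
    intro i j hij e' h1 h2
    obtain ⟨x, y, hxy, hp⟩ := hPe i e' h1
    obtain ⟨x', y', hxy', hp'⟩ := hPe j e' h2
    have hlt := (mem_F (hS.1 _ hp)).2.1
    have hlt' := (mem_F (hS.1 _ hp')).2.1
    simp only at hlt hlt'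
    rw [hxy] at hxy'
    rcases Sym2.eq_iff.1 hxy' with ⟨h3, h4⟩ | ⟨h3, h4⟩
    · rw [← h3, ← h4] at hp'
      exact hij (hlabinj i j (hS.2 _ _ _ hp hp'))
    · rw [← h3, ← h4] at hlt'
      linarith

theorem main (D : ℕ) : ∃ (V : Type) (_ : Fintype V) (G : SimpleGraph V),
    IsPlanar G ∧ IsPathPairable G ∧ G.Connected ∧ D ≤ G.diam := by
  refine ⟨VV D (12 * sz D + 7), inferInstance, GG D (12 * sz D + 7), GG_planar _ _,
    GG_pathPairable _ _ (by omega) ⟨6 * sz D + 3, by ring⟩, GG_connected _ _ (by omega), ?_⟩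
  exact (Nat.le_succ D).trans (GG_diam _ _ (by omega))

end Pool.Agent.helper90.PathPair
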