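import Pool.Agent.helper90.PathPair.Defs

/-!
# Graphs with a two-page book embedding are planar
-/

open Set

namespace Pool.Agent.helper90.PathPair

/-- no two intervals of the set interleave -/
def NonCr (S : Set (ℤ × ℤ)) : Prop :=
  ∀ p ∈ S, ∀ q ∈ S, ¬ (p.1 < q.1 ∧ q.1 < p.2 ∧ p.2 < q.2)

section arcs

/-- smaller end -/
def lo {V : Type*} (pos : V → ℤ) (e : Sym2 V) : ℤ :=
  Sym2.lift ⟨fun u v => min (pos u) (pos v), fun _ _ => min_comm _ _⟩ e

/-- larger end -/
def hi {V : Type*} (pos : V → ℤ) (e : Sym2 V) : ℤ :=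
  Sym2.lift ⟨fun u v => max (pos u) (pos v), fun _ _ => max_comm _ _⟩ e

open Classical in
/-- the sign of the page -/
noncomputable def sg (U : Set (ℤ × ℤ)) (p : ℤ × ℤ) : ℝ := if p ∈ U then 1 else -1

/-- the arc over an interval: half of a parabola bump above or below the axis -/
noncomputable def bump (ε a b t : ℝ) : ℝ × ℝ :=
  (a + t * (b - a), ε * ((t * (b - a)) * ((1 - t) * (b - a))))

/-- the arc of an edge -/
noncomputable def arcE {V : Type*} (pos : V → ℤ) (U : Set (ℤ × ℤ)) (e : Sym2 V) (t : ℝ) : ℝ × ℝ :=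
  bump (sg U (lo pos e, hi pos e)) (lo pos e) (hi pos e) t

theorem bump_continuous (ε a b : ℝ) : Continuous (bump ε a b) := by
  unfold bump; fun_prop

theorem bump_inj {ε a b : ℝ} (h : a < b) : Function.Injective (bump ε a b) := by
  intro s t hst
  have h1 : a + s * (b - a) = a + t * (b - a) := congrArg Prod.fst hst
  have h2 : s * (b - a) = t * (b - a) := by linarith
  exact mul_right_cancel₀ (by linarith) h2

/-- the height vanishes only at the ends -/
theorem bump_zero {ε a b t : ℝ} (hε : ε ≠ 0) (h : a < b) (h0 : (bump ε a b t).2 = 0) :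
    t = 0 ∨ t = 1 := by
  simp only [bump, mul_eq_zero] at h0
  rcases h0 with h0 | (h0 | h0) | (h0 | h0)
  · exact absurd h0 hε
  · exact Or.inl h0
  · linarith
  · exact Or.inr (by linarith)
  · linarith

theorem end_of_zero {ε a b t : ℝ} (hε : ε ≠ 0) (h : a < b) (h0 : (bump ε a b t).2 = 0) :
    (bump ε a b t).1 = a ∨ (bump ε a b t).1 = b := by
  rcases bump_zero hε h h0 with rfl | rfl <;> simp [bump]

theorem sg_ne (U : Set (ℤ × ℤ)) (p : ℤ × ℤ) : sg U p ≠ 0 := by
  unfold sg; split_ifs <;> norm_num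

/-- height in terms of the abscissa -/
theorem bump_snd (ε a b t : ℝ) : (bump ε a b t).2 =
    ε * (((bump ε a b t).1 - a) * (b - (bump ε a b t).1)) := by
  simp only [bump]; ring

theorem bump_fst_mem {ε a b t : ℝ} (h : a < b) (ht : t ∈ Icc (0 : ℝ) 1) :
    a ≤ (bump ε a b t).1 ∧ (bump ε a b t).1 ≤ b := by
  have h1 := ht.1
  have h2 := ht.2
  constructor
  · simp only [bump]; nlinarith
  · simp only [bump]; nlinarith

/-- two nested or disjoint bumps on one page meet only at common ends -/
theorem same_page {a b c d x : ℝ} (hax : a ≤ x) (hxb : x ≤ b) (hcx : c ≤ x)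
    (hxd : x ≤ d) (hne : ¬ (a = c ∧ b = d))
    (h1 : ¬ (a < c ∧ c < b ∧ b < d)) (h2 : ¬ (c < a ∧ a < d ∧ d < b))
    (heq : (x - a) * (b - x) = (x - c) * (d - x)) : (x = a ∨ x = b) ∧ (x = c ∨ x = d) := by
  have key : (x = a ∨ x = b) ∨ (x = c ∨ x = d) → (x = a ∨ x = b) ∧ (x = c ∨ x = d) := by
    rintro (h | h)
    · refine ⟨h, ?_⟩
      have h0 : (x - c) * (d - x) = 0 := by
        rw [← heq]; rcases h with rfl | rfl <;> ring
      rcases mul_eq_zero.1 h0 with h3 | h3
      · left; linarith
      · right; linarith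
    · refine ⟨?_, h⟩
      have h0 : (x - a) * (b - x) = 0 := by
        rw [heq]; rcases h with rfl | rfl <;> ring
      rcases mul_eq_zero.1 h0 with h3 | h3
      · left; linarith
      · right; linarith
  apply key
  by_contra hcon
  push Not at hcon
  obtain ⟨⟨h3, h4⟩, h5, h6⟩ := hcon
  have ha : a < x := lt_of_le_of_ne hax (Ne.symm h3)
  have hb : x < b := lt_of_le_of_ne hxb h4
  have hc : c < x := lt_of_le_of_ne hcx (Ne.symm h5)
  have hd : x < d := lt_of_le_of_ne hxd h6
  rcases lt_trichotomy a c with hac | hac | hac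
  · have hdb : d ≤ b := by
      by_contra hh
      exact h1 ⟨hac, by linarith, by linarith⟩
    nlinarith [mul_pos (sub_pos.2 hac) (sub_pos.2 hd), mul_nonneg (sub_nonneg.2 hdb) (sub_pos.2 ha).le]
  · have hdb : b = d := by
      subst hac
      have h7 : (x - a) * ((b - x) - (d - x)) = 0 := by linear_combination heq
      rcases mul_eq_zero.1 h7 with h8 | h8
      · linarith
      · linarith
    exact hne ⟨hac, hdb⟩
  · have hdb : b ≤ d := by
      by_contra hh
      exact h2 ⟨hac, by linarith, by linarith⟩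
    nlinarith [mul_pos (sub_pos.2 hac) (sub_pos.2 hb), mul_nonneg (sub_nonneg.2 hdb) (sub_pos.2 hc).le]

end arcs

theorem edge_rep {V : Type*} (G : SimpleGraph V) (pos : V → ℤ) (hpos : Function.Injective pos)
    {e : Sym2 V} (he : e ∈ G.edgeSet) :
    ∃ u v, e = s(u, v) ∧ pos u < pos v ∧ G.Adj u v ∧ lo pos e = pos u ∧ hi pos e = pos v := by
  induction e using Sym2.ind with
  | _ u v =>
    rw [SimpleGraph.mem_edgeSet] at he
    rcases lt_trichotomy (pos u) (pos v) with h | h | h
    · exact ⟨u, v, rfl, h, he, by simp [lo, h.le], by simp [hi, h.le]⟩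
    · exact absurd (hpos h) he.ne
    · exact ⟨v, u, Sym2.eq_swap, h, he.symm, by simp [lo, h.le], by simp [hi, h.le]⟩

theorem planar_of_book {V : Type*} (G : SimpleGraph V) (pos : V → ℤ)
    (hpos : Function.Injective pos) (U D : Set (ℤ × ℤ)) (hU : NonCr U) (hD : NonCr D)
    (hG : ∀ u v, G.Adj u v → pos u < pos v → (pos u, pos v) ∈ U ∨ (pos u, pos v) ∈ D) :
    IsPlanar G := by
  refine ⟨fun v => ((pos v : ℝ), 0), arcE pos U, ?_, ?_, ?_, ?_⟩
  · intro u v huv
    have h1 : (pos u : ℝ) = pos v := congrArg Prod.fst huv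
    exact hpos (by exact_mod_cast h1)
  · intro e he
    obtain ⟨u, v, rfl, huv, -, hl, hh⟩ := edge_rep G pos hpos he
    have huv' : (pos u : ℝ) < pos v := by exact_mod_cast huv
    refine ⟨(bump_continuous _ _ _).continuousOn, ?_, ?_⟩
    · unfold arcE
      rw [hl, hh]
      exact (bump_inj huv').injOn
    · unfold arcE
      rw [hl, hh, Sym2.map_mk]
      have e0 : bump (sg U (pos u, pos v)) (pos u) (pos v) 0 = ((pos u : ℝ), 0) := by
        simp [bump]
      have e1 : bump (sg U (pos u, pos v)) (pos u) (pos v) 1 = ((pos v : ℝ), 0) := by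
        simp [bump]
      rw [e0, e1]
  · intro e he t ht w hw
    obtain ⟨u, v, rfl, huv, -, hl, hh⟩ := edge_rep G pos hpos he
    have huv' : (pos u : ℝ) < pos v := by exact_mod_cast huv
    unfold arcE at hw
    rw [hl, hh] at hw
    have h0 := end_of_zero (sg_ne U _) huv' (congrArg Prod.snd hw)
    rw [hw] at h0
    replace h0 : (pos w : ℝ) = pos u ∨ (pos w : ℝ) = pos v := h0
    rcases h0 with h0 | h0
    · have h1 : w = u := hpos (by exact_mod_cast h0)
      rw [h1]; exact Sym2.mem_mk_left u v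
    · have h1 : w = v := hpos (by exact_mod_cast h0)
      rw [h1]; exact Sym2.mem_mk_right u v
  · intro e he e' he' hne t ht t' ht' htt
    obtain ⟨u, v, rfl, huv, hadj, hl, hh⟩ := edge_rep G pos hpos he
    obtain ⟨u', v', rfl, huv', hadj', hl', hh'⟩ := edge_rep G pos hpos he'
    have h1 : (pos u : ℝ) < pos v := by exact_mod_cast huv
    have h1' : (pos u' : ℝ) < pos v' := by exact_mod_cast huv'
    unfold arcE at htt ⊢
    rw [hl, hh, hl', hh'] at htt
    rw [hl, hh]
    set p := bump (sg U (pos u, pos v)) (pos u) (pos v) t with hp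
    have hx := bump_fst_mem (ε := sg U (pos u, pos v)) h1 ht
    have hx' := bump_fst_mem (ε := sg U (pos u', pos v')) h1' ht'
    have hy := bump_snd (sg U (pos u, pos v)) (pos u) (pos v) t
    have hy' := bump_snd (sg U (pos u', pos v')) (pos u') (pos v') t'
    rw [← hp] at hx hy
    rw [← htt] at hx' hy'
    -- both coordinates are ends
    have key : (p.1 = pos u ∨ p.1 = pos v) ∧ (p.1 = pos u' ∨ p.1 = pos v') := by
      have hneq : ¬ ((pos u : ℝ) = pos u' ∧ (pos v : ℝ) = pos v') := by
        rintro ⟨h3, h4⟩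
        apply hne
        have h5 : u = u' := hpos (by exact_mod_cast h3)
        have h6 : v = v' := hpos (by exact_mod_cast h4)
        rw [h5, h6]
      have hpair : ∀ S : Set (ℤ × ℤ), NonCr S → (pos u, pos v) ∈ S → (pos u', pos v') ∈ S →
          (p.1 - pos u) * (pos v - p.1) = (p.1 - pos u') * (pos v' - p.1) →
          (p.1 = pos u ∨ p.1 = pos v) ∧ (p.1 = pos u' ∨ p.1 = pos v') := by
        intro S hS hm hm' heq
        refine same_page hx.1 hx.2 hx'.1 hx'.2 hneq ?_ ?_ heq
        · rintro ⟨h3, h4, h5⟩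
          exact hS _ hm _ hm' ⟨by exact_mod_cast h3, by exact_mod_cast h4, by exact_mod_cast h5⟩
        · rintro ⟨h3, h4, h5⟩
          exact hS _ hm' _ hm ⟨by exact_mod_cast h3, by exact_mod_cast h4, by exact_mod_cast h5⟩
      have hn1 : 0 ≤ (p.1 - pos u) * (pos v - p.1) :=
        mul_nonneg (by linarith [hx.1]) (by linarith [hx.2])
      have hn2 : 0 ≤ (p.1 - pos u') * (pos v' - p.1) :=
        mul_nonneg (by linarith [hx'.1]) (by linarith [hx'.2])
      have hz : (p.1 - pos u) * (pos v - p.1) = 0 → (p.1 - pos u') * (pos v' - p.1) = 0 →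
          (p.1 = pos u ∨ p.1 = pos v) ∧ (p.1 = pos u' ∨ p.1 = pos v') := by
        intro h3 h4
        constructor
        · rcases mul_eq_zero.1 h3 with h5 | h5
          · left; linarith
          · right; linarith
        · rcases mul_eq_zero.1 h4 with h5 | h5
          · left; linarith
          · right; linarith
      by_cases hm : (pos u, pos v) ∈ U <;> by_cases hm' : (pos u', pos v') ∈ U
      · rw [sg, if_pos hm] at hy
        rw [sg, if_pos hm'] at hy'
        exact hpair U hU hm hm' (by linarith)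
      · rw [sg, if_pos hm] at hy
        rw [sg, if_neg hm'] at hy'
        exact hz (by linarith) (by linarith)
      · rw [sg, if_neg hm] at hy
        rw [sg, if_pos hm'] at hy'
        exact hz (by linarith) (by linarith)
      · rw [sg, if_neg hm] at hy
        rw [sg, if_neg hm'] at hy'
        exact hpair D hD ((hG u v hadj huv).resolve_left hm)
          ((hG u' v' hadj' huv').resolve_left hm') (by linarith)
    have hy0 : p.2 = 0 := by
      rw [hy]
      rcases key.1 with h3 | h3 <;> rw [h3] <;> ring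
    obtain ⟨w, hw, hwp⟩ : ∃ w, w ∈ s(u, v) ∧ p.1 = pos w := by
      rcases key.1 with h3 | h3
      · exact ⟨u, Sym2.mem_mk_left _ _, h3⟩
      · exact ⟨v, Sym2.mem_mk_right _ _, h3⟩
    obtain ⟨w', hw', hwp'⟩ : ∃ w, w ∈ s(u', v') ∧ p.1 = pos w := by
      rcases key.2 with h3 | h3
      · exact ⟨u', Sym2.mem_mk_left _ _, h3⟩
      · exact ⟨v', Sym2.mem_mk_right _ _, h3⟩
    have hww : w = w' := hpos (by
      have : (pos w : ℝ) = pos w' := by rw [← hwp, ← hwp']
      exact_mod_cast this)
    refine ⟨w, hw, hww ▸ hw', ?_⟩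
    exact Prod.ext hwp hy0

end Pool.Agent.helper90.PathPair
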