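import Pool.Agent.helper90.PathPair.Graph

/-!
# Selection of links and the final routing
-/

open Set

namespace Pool.Agent.helper90.PathPair

/-- the link `(ρ, ρ + 1)` of two rungs may be used, with respect to the pairing `σ` -/
def Good (s e : ℤ) (σ : ℤ → ℤ) (ρ : ℤ) : Prop :=
  s ≤ ρ ∧ ρ + 1 < e ∧ σ ρ ≠ ρ + 1 ∧ (s ≤ σ ρ ∧ σ ρ < e) ∧ (s ≤ σ (ρ + 1) ∧ σ (ρ + 1) < e)

/-- two links do not interfere -/
def Indep (σ : ℤ → ℤ) (ρ τ : ℤ) : Prop :=
  ∀ x, (x = ρ ∨ x = ρ + 1) → ∀ y, (y = τ ∨ y = τ + 1) → x ≠ y ∧ σ x ≠ y ∧ σ y ≠ x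

theorem Indep.symm {σ : ℤ → ℤ} {ρ τ : ℤ} (h : Indep σ ρ τ) : Indep σ τ ρ := by
  intro x hx y hy
  obtain ⟨h1, h2, h3⟩ := h y hy x hx
  exact ⟨h1.symm, h3, h2⟩

theorem select (s : ℤ) (B : ℕ) (T : Finset ℤ) (σ : ℤ → ℤ)
    (hT : ∀ z, s ≤ z → z < s + 3 * B → z ∉ T → σ z ∉ T → s ≤ σ z ∧ σ z < s + 3 * B)
    (hσ : ∀ z, s ≤ z → z < s + 3 * B → σ (σ z) = z)
    (M : Finset ℤ) (hB : 2 * T.card + 4 * M.card ≤ B) :
    ∃ φ : ℤ → ℤ, (∀ l ∈ M, Good s (s + 3 * B) σ (φ l)) ∧
      ∀ l ∈ M, ∀ l' ∈ M, l ≠ l' → Indep σ (φ l) (φ l') := by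
  classical
  induction M using Finset.induction_on with
  | empty => exact ⟨id, by simp, by simp⟩
  | insert l₀ M hl₀ ih =>
    rw [Finset.card_insert_of_notMem hl₀] at hB
    obtain ⟨φ, h1, h2⟩ := ih (by omega)
    -- forbidden set
    set Z : Finset ℤ := (T ∪ (Finset.Ico s (s + 3 * B)).filter (fun z => σ z ∈ T)) ∪
      M.biUnion (fun l => {φ l, φ l + 1, σ (φ l), σ (φ l + 1)}) with hZ
    have hfil : ((Finset.Ico s (s + 3 * B)).filter (fun z => σ z ∈ T)).card ≤ T.card := by
      apply Finset.card_le_card_of_injOn σ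
      · intro z hz
        exact (Finset.mem_filter.1 hz).2
      · intro z hz w hw hzw
        have hz' := Finset.mem_Ico.1 (Finset.mem_filter.1 hz).1
        have hw' := Finset.mem_Ico.1 (Finset.mem_filter.1 hw).1
        rw [← hσ z hz'.1 hz'.2, ← hσ w hw'.1 hw'.2, hzw]
    have hbi : (M.biUnion (fun l => ({φ l, φ l + 1, σ (φ l), σ (φ l + 1)} : Finset ℤ))).card
        ≤ M.card * 4 := by
      apply Finset.card_biUnion_le_card_mul
      intro l _
      exact Finset.card_le_four
    have hZc : Z.card < B := by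
      have h3 := Finset.card_union_le (T ∪ (Finset.Ico s (s + 3 * B)).filter (fun z => σ z ∈ T))
        (M.biUnion (fun l => {φ l, φ l + 1, σ (φ l), σ (φ l + 1)}))
      have h4 := Finset.card_union_le T ((Finset.Ico s (s + 3 * B)).filter (fun z => σ z ∈ T))
      rw [← hZ] at h3
      omega
    obtain ⟨j, hj, hjZ⟩ : ∃ j ∈ Finset.range B, j ∉ Z.image (fun z => ((z - s) / 3).toNat) := by
      apply Finset.exists_mem_notMem_of_card_lt_card
      rw [Finset.card_range]
      exact Finset.card_image_le.trans_lt hZc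
    rw [Finset.mem_range] at hj
    have hfree : ∀ z : ℤ, s + 3 * j ≤ z → z < s + 3 * j + 3 → z ∉ Z := by
      intro z hz1 hz2 hz
      apply hjZ
      rw [Finset.mem_image]
      refine ⟨z, hz, ?_⟩
      omega
    -- choose a link in the block
    obtain ⟨ρ, hρ1, hρ2, hρ3⟩ : ∃ ρ : ℤ, s + 3 * j ≤ ρ ∧ ρ + 1 < s + 3 * j + 3 ∧ σ ρ ≠ ρ + 1 := by
      by_cases h : σ (s + 3 * j) = s + 3 * j + 1
      · refine ⟨s + 3 * j + 1, by omega, by omega, ?_⟩
        rw [← h, hσ _ (by omega) (by omega), h]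
        omega
      · exact ⟨s + 3 * j, le_refl _, by omega, h⟩
    have hx : ∀ x, (x = ρ ∨ x = ρ + 1) → (s ≤ x ∧ x < s + 3 * B) ∧ x ∉ Z := by
      rintro x (rfl | rfl)
      · exact ⟨⟨by omega, by omega⟩, hfree _ hρ1 (by omega)⟩
      · exact ⟨⟨by omega, by omega⟩, hfree _ (by omega) (by omega)⟩
    have hxT : ∀ x, (x = ρ ∨ x = ρ + 1) → s ≤ σ x ∧ σ x < s + 3 * B := by
      intro x hx'
      obtain ⟨⟨h3, h4⟩, h5⟩ := hx x hx'
      apply hT x h3 h4
      · intro h6
        exact h5 (Finset.mem_union_left _ (Finset.mem_union_left _ h6))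
      · intro h6
        exact h5 (Finset.mem_union_left _ (Finset.mem_union_right _
          (Finset.mem_filter.2 ⟨Finset.mem_Ico.2 ⟨h3, h4⟩, h6⟩)))
    have hind : ∀ l ∈ M, Indep σ ρ (φ l) := by
      intro l hl x hx' y hy
      obtain ⟨⟨h3, h4⟩, h5⟩ := hx x hx'
      have hyZ : y ∈ Z ∧ σ y ∈ Z := by
        constructor
        · apply Finset.mem_union_right
          rw [Finset.mem_biUnion]
          refine ⟨l, hl, ?_⟩
          rcases hy with rfl | rfl <;> simp
        · apply Finset.mem_union_right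
          rw [Finset.mem_biUnion]
          refine ⟨l, hl, ?_⟩
          rcases hy with rfl | rfl <;> simp
      refine ⟨?_, ?_, ?_⟩
      · rintro rfl
        exact h5 hyZ.1
      · intro h6
        apply h5
        have h7 : σ y = x := by rw [← h6, hσ x h3 h4]
        rw [← h7]
        exact hyZ.2
      · intro h6
        apply h5
        rw [← h6]
        exact hyZ.2
    have hne0 : ∀ l ∈ M, l ≠ l₀ := by
      intro l hl h
      rw [h] at hl
      exact hl₀ hl
    refine ⟨Function.update φ l₀ ρ, ?_, ?_⟩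
    · intro l hl
      rcases Finset.mem_insert.1 hl with h | hl2
      · rw [h, Function.update_self]
        exact ⟨by omega, by omega, hρ3, hxT ρ (Or.inl rfl), hxT (ρ + 1) (Or.inr rfl)⟩
      · rw [Function.update_of_ne (hne0 l hl2)]
        exact h1 l hl2
    · intro l hl l' hl' hne
      rcases Finset.mem_insert.1 hl with h | hl2
      · rcases Finset.mem_insert.1 hl' with h' | hl2'
        · exact absurd (h.trans h'.symm) hne
        · rw [h, Function.update_self, Function.update_of_ne (hne0 l' hl2')]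
          exact hind l' hl2'
      · rcases Finset.mem_insert.1 hl' with h' | hl2'
        · rw [h', Function.update_self, Function.update_of_ne (hne0 l hl2)]
          exact (hind l hl2).symm
        · rw [Function.update_of_ne (hne0 l hl2), Function.update_of_ne (hne0 l' hl2')]
          exact h2 l hl2 l' hl2' hne

end Pool.Agent.helper90.PathPair
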